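import Pool.Agent.Helper95.ISO.Semisimple

/-!
# The double centralizer theorem for the endomorphisms of a motive
-/

open scoped TensorProduct
open Module

namespace Pool.Agent.Helper95.ISO

/-- **Double centralizer.** `A` a semisimple algebra over `k`, `V` a vector space over `K` on which
`A` acts by `K`-linear maps: the `K`-linear maps which commute with the commutant of `A` are
`K`-linear combinations of elements of `A`. -/
theorem mem_span_of_commutes {k K A V : Type*} [Field k] [CharZero k] [Field K] [Algebra k K]
    [Ring A] [Algebra k A] [FiniteDimensional k A] [IsSemisimpleRing A] [AddCommGroup V]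
    [Module K V] [FiniteDimensional K V] [Module k V] [IsScalarTower k K V]
    (real : A →ₐ[k] Module.End K V)
    (f : Module.End K V)
    (hf : ∀ g : Module.End K V, (∀ a, g * real a = real a * g) → f * g = g * f) :
    f ∈ Submodule.span K (Set.range real) := by
  classical
  let Φ : (K ⊗[k] A) →ₐ[K] Module.End K V :=
    Algebra.TensorProduct.lift (Algebra.ofId K (Module.End K V)) real (fun c a => by
      rw [Algebra.ofId_apply]
      exact Algebra.commute_algebraMap_left c _)
  have hΦ : ∀ c a, Φ (c ⊗ₜ[k] a) = c • real a := by
    intro c a
    simp only [Φ, Algebra.TensorProduct.lift_tmul, Algebra.ofId_apply]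
    rw [Algebra.smul_def]
  have hrange : ∀ r, Φ r ∈ Submodule.span K (Set.range real) := by
    intro r
    induction r using TensorProduct.induction_on with
    | zero => rw [map_zero]; exact Submodule.zero_mem _
    | tmul c a => rw [hΦ]; exact Submodule.smul_mem _ _ (Submodule.subset_span ⟨a, rfl⟩)
    | add x y hx hy => rw [map_add]; exact Submodule.add_mem _ hx hy
  have : IsSemisimpleRing (K ⊗[k] A) := semisimple_baseChange k K A
  let mod : Module (K ⊗[k] A) V := Module.compHom V (Φ : (K ⊗[k] A) →+* Module.End K V)
  have hsm : ∀ (r : K ⊗[k] A) (v : V), r • v = Φ r v := fun r v => rfl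
  -- `f` commutes with the endomorphisms of the module
  let F : Module.End (Module.End (K ⊗[k] A) V) V :=
    { toFun := f
      map_add' := f.map_add
      map_smul' := by
        intro g v
        simp only [RingHom.id_apply]
        -- `g` as a `K`-linear map
        have hgK : ∀ (c : K) (w : V), g (c • w) = c • g w := by
          intro c w
          have h1 : c • w = (c ⊗ₜ[k] (1 : A)) • w := by
            rw [hsm, hΦ, map_one]; rfl
          have h2 : c • g w = (c ⊗ₜ[k] (1 : A)) • g w := by
            rw [hsm, hΦ, map_one]; rfl
          rw [h1, h2, map_smul]
        let g' : Module.End K V :=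
          { toFun := g
            map_add' := g.map_add
            map_smul' := hgK }
        have hg' : ∀ a, g' * real a = real a * g' := by
          intro a
          ext w
          have h1 : real a w = ((1 : K) ⊗ₜ[k] a) • w := by
            rw [hsm, hΦ, one_smul]
          have h2 : real a (g w) = ((1 : K) ⊗ₜ[k] a) • g w := by
            rw [hsm, hΦ, one_smul]
          change g (real a w) = real a (g w)
          rw [h1, h2, map_smul]
        have := hf g' hg'
        have h3 := congrArg (fun h : Module.End K V => h v) this
        simpa using! h3 }
  let b := Module.finBasis K V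
  obtain ⟨r, hr⟩ := jacobson_density F (Finset.univ.image b)
  have hfr : f = Φ r := by
    refine b.ext fun i => ?_
    exact hr (b i) (Finset.mem_image_of_mem _ (Finset.mem_univ _))
  rw [hfr]
  exact hrange r

/-- matrix form of the double centralizer theorem -/
theorem matrix_mem_span {k K A κ : Type*} [Field k] [CharZero k] [Field K] [Algebra k K]
    [Ring A] [Algebra k A] [FiniteDimensional k A] [IsSemisimpleRing A] [Fintype κ]
    [DecidableEq κ] (real : A →ₐ[k] Matrix κ κ K) (X : Matrix κ κ K)
    (hX : ∀ Y : Matrix κ κ K, (∀ a, Y * real a = real a * Y) → X * Y = Y * X) :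
    X ∈ Submodule.span K (Set.range real) := by
  classical
  let e : Matrix κ κ K ≃ₐ[K] Module.End K (κ → K) := Matrix.toLinAlgEquiv'
  let real' : A →ₐ[k] Module.End K (κ → K) := (e.toAlgHom.restrictScalars k).comp real
  have h := mem_span_of_commutes real' (e X) (by
    intro g hg
    have h1 : X * e.symm g = e.symm g * X := by
      apply hX
      intro a
      apply e.injective
      rw [map_mul, map_mul, AlgEquiv.apply_symm_apply]
      exact hg a
    have h2 := congrArg e h1
    rw [map_mul, map_mul, AlgEquiv.apply_symm_apply] at h2
    exact h2)
  have h3 : ∀ f ∈ Submodule.span K (Set.range real'),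
      e.symm f ∈ Submodule.span K (Set.range real) := by
    intro f hf
    induction hf using Submodule.span_induction with
    | mem x hx =>
      obtain ⟨a, rfl⟩ := hx
      exact Submodule.subset_span ⟨a, (e.symm_apply_apply (real a)).symm⟩
    | zero => rw [map_zero]; exact Submodule.zero_mem _
    | add x y _ _ hx hy => rw [map_add]; exact Submodule.add_mem _ hx hy
    | smul c x _ ih => rw [map_smul]; exact Submodule.smul_mem _ _ ih
  have h4 := h3 _ h
  rwa [AlgEquiv.symm_apply_apply] at h4

end Pool.Agent.Helper95.ISO
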