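import Pool.Agent.Helper95.ISO.Three

/-!
# The dichotomy for one Tate class
-/

open Module Matrix

namespace Pool.Agent.Helper95.ISO

variable {p : ℕ} [Fact p.Prime] {κ κ' : Type} [Fintype κ] [DecidableEq κ] [Fintype κ']
  [DecidableEq κ'] {A : Type} [Ring A]

/-- the isomorphism of two of the lattices -/
def Iso (real : A →+* Matrix (κ ⊕ κ') (κ ⊕ κ') ℚ_[p]) (φ : Matrix κ' κ ℚ_[p]) (n m : ℕ) : Prop :=
  ∃ a : Aˣ, (fun v => real a *ᵥ v) '' lat φ n = lat φ m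

theorem Iso.symm {real : A →+* Matrix (κ ⊕ κ') (κ ⊕ κ') ℚ_[p]} {φ : Matrix κ' κ ℚ_[p]} {n m : ℕ}
    (h : Iso real φ n m) : Iso real φ m n := by
  obtain ⟨a, ha⟩ := h
  refine ⟨a⁻¹, ?_⟩
  rw [← ha, Set.image_image]
  have : (fun v => real ↑a⁻¹ *ᵥ (real ↑a *ᵥ v)) = fun v => v := by
    funext v
    rw [Matrix.mulVec_mulVec, ← map_mul, Units.inv_mul, map_one, Matrix.one_mulVec]
  rw [this, Set.image_id']

theorem Iso.trans {real : A →+* Matrix (κ ⊕ κ') (κ ⊕ κ') ℚ_[p]} {φ : Matrix κ' κ ℚ_[p]}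
    {n m l : ℕ} (h : Iso real φ n m) (h' : Iso real φ m l) : Iso real φ n l := by
  obtain ⟨a, ha⟩ := h
  obtain ⟨b, hb⟩ := h'
  refine ⟨b * a, ?_⟩
  rw [← hb, ← ha, Set.image_image]
  have : (fun v => real ↑(b * a) *ᵥ v) = fun v => real ↑b *ᵥ (real ↑a *ᵥ v) := by
    funext v
    rw [Matrix.mulVec_mulVec, ← map_mul, Units.val_mul]
  rw [this]

/-- the lattice only depends on `φ` modulo `p ^ n` -/
theorem lat_congr (φ ψ : Matrix κ' κ ℚ_[p]) (n : ℕ)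
    (h : ∀ i j, ‖(φ - ψ) i j‖ ≤ (p : ℝ) ^ (-(n : ℤ))) : lat φ n = lat ψ n := by
  have key : ∀ φ ψ : Matrix κ' κ ℚ_[p], (∀ i j, ‖(φ - ψ) i j‖ ≤ (p : ℝ) ^ (-(n : ℤ))) →
      lat φ n ⊆ lat ψ n := by
    intro φ ψ h v hv
    refine ⟨hv.1, fun j => ?_⟩
    have h1 : v (Sum.inr j) - (ψ *ᵥ fun i => v (Sum.inl i)) j =
        (v (Sum.inr j) - (φ *ᵥ fun i => v (Sum.inl i)) j) +
          ((φ - ψ) *ᵥ fun i => v (Sum.inl i)) j := by
      rw [Matrix.sub_mulVec, Pi.sub_apply]; ring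
    rw [h1]
    apply norm_add_le' _ _ _ (hv.2 j)
    have := norm_mulVec_le (φ - ψ) (fun i => v (Sum.inl i)) _ 1 (pow_pos' _).le zero_le_one h
      hv.1 j
    rwa [mul_one] at this
  refine Set.Subset.antisymm (key φ ψ h) (key ψ φ ?_)
  intro i j
  have : (ψ - φ) i j = -((φ - ψ) i j) := by simp
  rw [this, norm_neg]
  exact h i j

/-- matrices congruent to one preserve the lattices -/
theorem mulVec_mem (φ : Matrix κ' κ ℚ_[p]) (hφ : ∀ i j, ‖φ i j‖ ≤ 1) (n : ℕ)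
    (u : Matrix (κ ⊕ κ') (κ ⊕ κ') ℚ_[p]) (hu : ∀ i j, ‖(u - 1) i j‖ ≤ (p : ℝ) ^ (-((n : ℤ) + 1)))
    (v : κ ⊕ κ' → ℚ_[p]) (hv : v ∈ lat φ n) : u *ᵥ v ∈ lat φ n := by
  have hp : (1 : ℝ) < p := one_lt_p
  have hle : (p : ℝ) ^ (-((n : ℤ) + 1)) ≤ (p : ℝ) ^ (-(n : ℤ)) :=
    zpow_le_zpow_right₀ hp.le (by omega)
  have hle1 : (p : ℝ) ^ (-(n : ℤ)) ≤ 1 := by
    rw [← zpow_zero (p : ℝ)]
    exact zpow_le_zpow_right₀ hp.le (by omega)
  -- `v` is integral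
  have hvi : ∀ i, ‖v i‖ ≤ 1 := by
    intro i
    rcases i with i | j
    · exact hv.1 i
    · have h1 : v (Sum.inr j) = (v (Sum.inr j) - (φ *ᵥ fun i => v (Sum.inl i)) j) +
          (φ *ᵥ fun i => v (Sum.inl i)) j := by ring
      rw [h1]
      apply norm_add_le' _ _ _ ((hv.2 j).trans hle1)
      have := norm_mulVec_le φ (fun i => v (Sum.inl i)) 1 1 zero_le_one zero_le_one hφ hv.1 j
      simpa using this
  set w := (u - 1) *ᵥ v with hw
  have huv : u *ᵥ v = v + w := by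
    rw [hw, Matrix.sub_mulVec, Matrix.one_mulVec]; abel
  have hwn : ∀ i, ‖w i‖ ≤ (p : ℝ) ^ (-(n : ℤ)) := by
    intro i
    have := norm_mulVec_le (u - 1) v _ 1 (pow_pos' _).le zero_le_one hu hvi i
    rw [mul_one] at this
    exact this.trans hle
  rw [huv]
  refine ⟨fun i => norm_add_le' _ _ _ (hv.1 i) ((hwn _).trans hle1), fun j => ?_⟩
  have h1 : (v + w) (Sum.inr j) - (φ *ᵥ fun i => (v + w) (Sum.inl i)) j =
      (v (Sum.inr j) - (φ *ᵥ fun i => v (Sum.inl i)) j) +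
        (w (Sum.inr j) - (φ *ᵥ fun i => w (Sum.inl i)) j) := by
    have : (fun i => (v + w) (Sum.inl i)) = (fun i => v (Sum.inl i)) + fun i => w (Sum.inl i) := rfl
    rw [this, Matrix.mulVec_add]
    simp only [Pi.add_apply]
    ring
  rw [h1]
  apply norm_add_le' _ _ _ (hv.2 j)
  apply norm_sub_le' _ _ _ (hwn _)
  have := norm_mulVec_le φ (fun i => w (Sum.inl i)) 1 _ zero_le_one (pow_pos' _).le hφ
    (fun i => hwn _) j
  rwa [one_mul] at this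

/-- the explicit isomorphism for an algebraic class -/
noncomputable def expl (ψ : Matrix κ' κ ℚ_[p]) (n : ℕ) : Matrix (κ ⊕ κ') (κ ⊕ κ') ℚ_[p] :=
  fromBlocks 1 0 ((1 - (p : ℚ_[p]) ^ n) • ψ) ((p : ℚ_[p]) ^ n • (1 : Matrix κ' κ' ℚ_[p]))

theorem expl_inl (ψ : Matrix κ' κ ℚ_[p]) (n : ℕ) (v : κ ⊕ κ' → ℚ_[p]) (i : κ) :
    (expl ψ n *ᵥ v) (Sum.inl i) = v (Sum.inl i) := by
  unfold expl
  rw [Matrix.fromBlocks_mulVec]
  simp

theorem expl_inr (ψ : Matrix κ' κ ℚ_[p]) (n : ℕ) (v : κ ⊕ κ' → ℚ_[p]) (j : κ') :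
    (expl ψ n *ᵥ v) (Sum.inr j) = (ψ *ᵥ fun i => v (Sum.inl i)) j +
      (p : ℚ_[p]) ^ n * (v (Sum.inr j) - (ψ *ᵥ fun i => v (Sum.inl i)) j) := by
  unfold expl
  rw [Matrix.fromBlocks_mulVec]
  simp only [Sum.elim_inr, Pi.add_apply, Matrix.smul_mulVec, Matrix.one_mulVec, Pi.smul_apply,
    smul_eq_mul]
  change (1 - (p : ℚ_[p]) ^ n) * (ψ *ᵥ fun i => v (Sum.inl i)) j +
    (p : ℚ_[p]) ^ n * v (Sum.inr j) = _
  ring

theorem image_explicit (ψ : Matrix κ' κ ℚ_[p]) (n : ℕ) :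
    (fun v => expl ψ n *ᵥ v) '' lat ψ 0 = lat ψ n := by
  have hp0 : (p : ℚ_[p]) ≠ 0 := by exact_mod_cast (Fact.out : p.Prime).ne_zero
  have hnorm : ‖(p : ℚ_[p]) ^ n‖ = (p : ℝ) ^ (-(n : ℤ)) := by
    rw [norm_pow, Padic.norm_p, _root_.zpow_neg, zpow_natCast, inv_pow]
  ext v
  constructor
  · rintro ⟨w, hw, rfl⟩
    refine ⟨fun i => ?_, fun j => ?_⟩
    · change ‖(expl ψ n *ᵥ w) (Sum.inl i)‖ ≤ 1
      rw [expl_inl]; exact hw.1 i
    · change ‖(expl ψ n *ᵥ w) (Sum.inr j) -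
        (ψ *ᵥ fun i => (expl ψ n *ᵥ w) (Sum.inl i)) j‖ ≤ _
      have h1 : (fun i => (expl ψ n *ᵥ w) (Sum.inl i)) = fun i => w (Sum.inl i) := by
        funext i; exact expl_inl ψ n w i
      rw [h1, expl_inr, add_sub_cancel_left, norm_mul, hnorm]
      have h2 := hw.2 j
      simp only [CharP.cast_eq_zero, neg_zero, zpow_zero] at h2
      calc (p : ℝ) ^ (-(n : ℤ)) * _ ≤ (p : ℝ) ^ (-(n : ℤ)) * 1 :=
            mul_le_mul_of_nonneg_left h2 (pow_pos' _).le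
        _ = _ := mul_one _
  · intro hv
    let w : κ ⊕ κ' → ℚ_[p] := Sum.elim (fun i => v (Sum.inl i)) (fun j =>
      (ψ *ᵥ fun i => v (Sum.inl i)) j +
        ((p : ℚ_[p]) ^ n)⁻¹ * (v (Sum.inr j) - (ψ *ᵥ fun i => v (Sum.inl i)) j))
    have hwl : (fun i => w (Sum.inl i)) = fun i => v (Sum.inl i) := rfl
    refine ⟨w, ⟨hv.1, fun j => ?_⟩, ?_⟩
    · rw [hwl]
      change ‖((ψ *ᵥ fun i => v (Sum.inl i)) j +
        ((p : ℚ_[p]) ^ n)⁻¹ * (v (Sum.inr j) - (ψ *ᵥ fun i => v (Sum.inl i)) j)) -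
        (ψ *ᵥ fun i => v (Sum.inl i)) j‖ ≤ _
      rw [add_sub_cancel_left, norm_mul, norm_inv, hnorm]
      simp only [CharP.cast_eq_zero, neg_zero, zpow_zero]
      rw [inv_mul_le_iff₀ (pow_pos' _), mul_one]
      exact hv.2 j
    · funext i
      rcases i with i | j
      · change (expl ψ n *ᵥ w) (Sum.inl i) = _
        rw [expl_inl]; rfl
      · change (expl ψ n *ᵥ w) (Sum.inr j) = _
        rw [expl_inr, hwl]
        change (ψ *ᵥ fun i => v (Sum.inl i)) j + (p : ℚ_[p]) ^ n *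
          (((ψ *ᵥ fun i => v (Sum.inl i)) j +
        ((p : ℚ_[p]) ^ n)⁻¹ * (v (Sum.inr j) - (ψ *ᵥ fun i => v (Sum.inl i)) j)) -
          (ψ *ᵥ fun i => v (Sum.inl i)) j) = v (Sum.inr j)
        rw [add_sub_cancel_left, mul_inv_cancel_left₀ (pow_ne_zero _ hp0)]
        ring

variable [Algebra ℚ A] [FiniteDimensional ℚ A]

/-- **The lattices of an algebraic class are isomorphic.** -/
theorem iso_of_algebraic (real : A →+* Matrix (κ ⊕ κ') (κ ⊕ κ') ℚ_[p])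
    (hinj : Function.Injective real) (hproj : ∃ e, real e = fromBlocks 1 0 0 0)
    (ψ : Matrix κ' κ ℚ_[p]) (hψ : ψ ∈ homs real) (hψi : ∀ i j, ‖ψ i j‖ ≤ 1) (n : ℕ) :
    Iso real ψ 0 n := by
  classical
  obtain ⟨e, he⟩ := hproj
  have hp0 : (p : ℚ_[p]) ≠ 0 := by exact_mod_cast (Fact.out : p.Prime).ne_zero
  have hpn : (p : ℚ_[p]) ^ n ≠ 0 := pow_ne_zero _ hp0
  let h : Matrix (κ ⊕ κ') (κ ⊕ κ') ℚ_[p] :=
    fromBlocks 1 0 ((1 - (p : ℚ_[p]) ^ n) • ψ) ((p : ℚ_[p]) ^ n • (1 : Matrix κ' κ' ℚ_[p]))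
  let g : Matrix (κ ⊕ κ') (κ ⊕ κ') ℚ_[p] :=
    fromBlocks 1 0 ((1 - ((p : ℚ_[p]) ^ n)⁻¹) • ψ)
      (((p : ℚ_[p]) ^ n)⁻¹ • (1 : Matrix κ' κ' ℚ_[p]))
  have hgh : g * h = 1 := by
    simp only [g, h]
    rw [fromBlocks_multiply, ← fromBlocks_one]
    simp only [Matrix.mul_one, Matrix.mul_zero, Matrix.zero_mul, add_zero, zero_add,
      Matrix.smul_mul, Matrix.one_mul, Matrix.mul_smul, smul_smul]
    rw [fromBlocks_inj]
    refine ⟨by simp, by simp, ?_, ?_⟩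
    · rw [← add_smul]
      have : (1 - ((p : ℚ_[p]) ^ n)⁻¹) + (1 - (p : ℚ_[p]) ^ n) * ((p : ℚ_[p]) ^ n)⁻¹ = 0 := by
        field_simp; ring
      rw [this, zero_smul]
    · rw [mul_inv_cancel₀ hpn, one_smul]
  have hhg : h * g = 1 := by
    simp only [g, h]
    rw [fromBlocks_multiply, ← fromBlocks_one]
    simp only [Matrix.mul_one, Matrix.mul_zero, Matrix.zero_mul, add_zero, zero_add,
      Matrix.smul_mul, Matrix.one_mul, Matrix.mul_smul, smul_smul]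
    rw [fromBlocks_inj]
    refine ⟨by simp, by simp, ?_, ?_⟩
    · rw [← add_smul]
      have : (1 - (p : ℚ_[p]) ^ n) + (1 - ((p : ℚ_[p]) ^ n)⁻¹) * (p : ℚ_[p]) ^ n = 0 := by
        field_simp; ring
      rw [this, zero_smul]
    · rw [inv_mul_cancel₀ hpn, one_smul]
  -- the extension by zero of `ψ`
  have hΨ : ∀ ψ ∈ homs real, fromBlocks 0 0 ψ 0 ∈ Submodule.span ℚ_[p] (Set.range real) := by
    intro ψ hψ
    induction hψ using Submodule.span_induction with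
    | mem x hx =>
      obtain ⟨a, ha⟩ := hx
      exact Submodule.subset_span ⟨a, ha⟩
    | zero => rw [fromBlocks_zero]; exact Submodule.zero_mem _
    | add x y _ _ hx hy =>
      have : fromBlocks (0 : Matrix κ κ ℚ_[p]) (0 : Matrix κ κ' ℚ_[p]) (x + y)
          (0 : Matrix κ' κ' ℚ_[p]) = fromBlocks 0 0 x 0 + fromBlocks 0 0 y 0 := by
        rw [fromBlocks_add]; simp
      rw [this]
      exact Submodule.add_mem _ hx hy
    | smul c x _ ih =>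
      have : fromBlocks (0 : Matrix κ κ ℚ_[p]) (0 : Matrix κ κ' ℚ_[p]) (c • x)
          (0 : Matrix κ' κ' ℚ_[p]) = c • fromBlocks 0 0 x 0 := by
        rw [fromBlocks_smul]; simp
      rw [this]
      exact Submodule.smul_mem _ _ ih
  have hh : h ∈ Submodule.span ℚ_[p] (Set.range real) := by
    have h1 : h = fromBlocks 1 0 0 0 + ((p : ℚ_[p]) ^ n) • (1 - fromBlocks 1 0 0 0) +
        (1 - (p : ℚ_[p]) ^ n) • fromBlocks 0 0 ψ 0 := by
      simp only [h]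
      have h2 : (1 : Matrix (κ ⊕ κ') (κ ⊕ κ') ℚ_[p]) - fromBlocks 1 0 0 0 = fromBlocks 0 0 0 1 := by
        rw [← fromBlocks_one, sub_eq_add_neg, fromBlocks_neg, fromBlocks_add]
        simp
      rw [h2, fromBlocks_smul, fromBlocks_smul, fromBlocks_add, fromBlocks_add]
      simp
    rw [h1]
    refine Submodule.add_mem _ (Submodule.add_mem _ ?_ (Submodule.smul_mem _ _ ?_))
      (Submodule.smul_mem _ _ (hΨ ψ hψ))
    · exact Submodule.subset_span ⟨e, he⟩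
    · exact Submodule.subset_span ⟨1 - e, by rw [map_sub, map_one, he]⟩
  obtain ⟨a, u, v, hau, huv, hvu, hu, hv⟩ := exists_unit real hinj h g hgh hhg hh 0
  refine ⟨a, ?_⟩
  have h1 : (fun w => u *ᵥ w) '' lat ψ 0 = lat ψ 0 := by
    refine Set.Subset.antisymm ?_ ?_
    · rintro _ ⟨w, hw, rfl⟩
      exact mulVec_mem ψ hψi 0 u hu w hw
    · intro w hw
      refine ⟨v *ᵥ w, mulVec_mem ψ hψi 0 v hv w hw, ?_⟩
      change u *ᵥ (v *ᵥ w) = w
      rw [Matrix.mulVec_mulVec, huv, Matrix.one_mulVec]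
  have h2 : (fun w => real a *ᵥ w) '' lat ψ 0 = (fun w => h *ᵥ w) '' ((fun w => u *ᵥ w) '' lat ψ 0) := by
    rw [Set.image_image]
    congr 1
    funext w
    rw [hau, Matrix.mulVec_mulVec]
  rw [h2, h1]
  exact image_explicit ψ n

variable [IsSemisimpleRing A]

/-- **The dichotomy.** -/
theorem dichotomy (real : A →+* Matrix (κ ⊕ κ') (κ ⊕ κ') ℚ_[p])
    (hinj : Function.Injective real) (hproj : ∃ e, real e = fromBlocks 1 0 0 0) :
    ∃ C : ℕ, ∀ φ : Matrix κ' κ ℚ_[p], (∀ i j, ‖φ i j‖ ≤ 1) →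
      (φ ∈ homs real ∧ ∀ n m, Iso real φ n m) ∨
      (φ ∉ homs real ∧ ∃ d : ℕ,
        (∃ ψ ∈ homs real, ∀ i j, ‖(φ - ψ) i j‖ ≤ (p : ℝ) ^ (-(d : ℤ))) ∧
        (∀ ψ ∈ homs real, ¬ ∀ i j, ‖(φ - ψ) i j‖ ≤ (p : ℝ) ^ (-((d : ℤ) + 1))) ∧
        (∀ n m, n ≤ d → m ≤ d → Iso real φ n m) ∧
        (∀ n m, d + C ≤ n → d + C ≤ m → Iso real φ n m → n = m)) := by
  classical
  have hp : (1 : ℝ) < p := one_lt_p
  obtain ⟨C, hC⟩ := exists_constant real hproj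
  refine ⟨C, fun φ hφ => ?_⟩
  -- isomorphisms give congruences
  have hcong : ∀ n m, n < m → Iso real φ n m →
      ∃ ψ ∈ homs real, ∀ i j, ‖(φ - ψ) i j‖ ≤ (p : ℝ) ^ ((C : ℤ) - ((n : ℤ) + 1)) := by
    intro n m hnm ⟨a, ha⟩
    obtain ⟨ψ, hψ, h⟩ := hC φ ((p : ℝ) ^ (-((n : ℤ) + 1))) (pow_pos' _).le
      (fun c hc hci => small_of_iso real hproj φ hφ n m hnm a ha c hc hci)
    refine ⟨ψ, hψ, fun i j => (h i j).trans (le_of_eq ?_)⟩
    rw [← zpow_natCast, ← zpow_add₀ (by positivity)]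
    congr 1
  -- congruences give isomorphisms
  have hiso : ∀ d : ℕ, (∃ ψ ∈ homs real, ∀ i j, ‖(φ - ψ) i j‖ ≤ (p : ℝ) ^ (-(d : ℤ))) →
      ∀ n m, n ≤ d → m ≤ d → Iso real φ n m := by
    rintro d ⟨ψ, hψ, hd⟩ n m hn hm
    have hψi : ∀ i j, ‖ψ i j‖ ≤ 1 := by
      intro i j
      have h1 : ψ i j = φ i j - (φ - ψ) i j := by simp
      rw [h1]
      apply norm_sub_le' _ _ _ (hφ i j)
      refine (hd i j).trans ?_
      rw [← zpow_zero (p : ℝ)]
      exact zpow_le_zpow_right₀ hp.le (by omega)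
    have h0 : ∀ k, k ≤ d → lat φ k = lat ψ k := by
      intro k hk
      apply lat_congr
      intro i j
      exact (hd i j).trans (zpow_le_zpow_right₀ hp.le (by omega))
    have h1 : ∀ k, k ≤ d → Iso real φ 0 k := by
      intro k hk
      obtain ⟨a, ha⟩ := iso_of_algebraic real hinj hproj ψ hψ hψi k
      exact ⟨a, by rw [h0 0 (Nat.zero_le _), h0 k hk]; exact ha⟩
    exact (h1 n hn).symm.trans (h1 m hm)
  by_cases hmem : φ ∈ homs real
  · left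
    refine ⟨hmem, fun n m => ?_⟩
    exact hiso (max n m) ⟨φ, hmem, fun i j => by
      simpa using (pow_pos' (p := p) (-((max n m : ℕ) : ℤ))).le⟩ n m (le_max_left _ _)
      (le_max_right _ _)
  · right
    refine ⟨hmem, ?_⟩
    let P : ℕ → Prop := fun d => ∃ ψ ∈ homs real, ∀ i j, ‖(φ - ψ) i j‖ ≤ (p : ℝ) ^ (-(d : ℤ))
    have hP0 : P 0 := ⟨0, Submodule.zero_mem _, fun i j => by simpa using hφ i j⟩
    -- bounded
    have hbdd : ∃ N, ¬ P N := by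
      by_contra hcon
      push Not at hcon
      apply hmem
      apply mem_of_approx
      intro ε hε
      obtain ⟨N, hN⟩ := pow_unbounded_of_one_lt (ε⁻¹) hp
      obtain ⟨ψ, hψ, h⟩ := hcon N
      refine ⟨ψ, hψ, fun i j => (h i j).trans ?_⟩
      rw [_root_.zpow_neg, zpow_natCast]
      rw [inv_le_comm₀ (by positivity) hε]
      exact hN.le
    have hmono : ∀ d d', d ≤ d' → P d' → P d := by
      rintro d d' hdd ⟨ψ, hψ, h⟩
      exact ⟨ψ, hψ, fun i j => (h i j).trans (zpow_le_zpow_right₀ hp.le (by omega))⟩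
    let N := Nat.find hbdd
    have hN : ¬ P N := Nat.find_spec hbdd
    have hN0 : N ≠ 0 := by
      intro h
      rw [h] at hN
      exact hN hP0
    obtain ⟨d, hd⟩ := Nat.exists_eq_succ_of_ne_zero hN0
    have hPd : P d := by
      by_contra h
      have := Nat.find_min' hbdd h
      change N ≤ d at this
      omega
    have hnot : ∀ ψ ∈ homs real, ¬ ∀ i j, ‖(φ - ψ) i j‖ ≤ (p : ℝ) ^ (-((d : ℤ) + 1)) := by
      intro ψ hψ h
      apply hN
      rw [hd]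
      exact ⟨ψ, hψ, fun i j => by
        have := h i j
        push_cast
        exact this⟩
    refine ⟨d, hPd, hnot, hiso d hPd, ?_⟩
    -- distinct
    have key : ∀ n m, d + C ≤ n → n < m → ¬ Iso real φ n m := by
      intro n m hn hnm h
      obtain ⟨ψ, hψ, hle⟩ := hcong n m hnm h
      apply hnot ψ hψ
      intro i j
      refine (hle i j).trans (zpow_le_zpow_right₀ hp.le ?_)
      omega
    intro n m hn hm h
    rcases lt_trichotomy n m with h1 | h1 | h1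
    · exact absurd h (key n m hn h1)
    · exact h1
    · exact absurd h.symm (key m n hm h1)

end Pool.Agent.Helper95.ISO
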