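import Pool.Agent.Helper95.ISO.Four

/-!
# Subspaces which are not stable under the commutant
-/

open Module Matrix

namespace Pool.Agent.Helper95.ISO

variable {p : ℕ} [Fact p.Prime] {ι : Type} [Fintype ι] [DecidableEq ι]

/-- the lattice `(T ∩ W) + p ^ n T` -/
def trunc (W : Submodule ℚ_[p] (ι → ℚ_[p])) (n : ℕ) : Submodule ℤ_[p] (ι → ℚ_[p]) where
  carrier := {v | ∃ w ∈ W, (∀ i, ‖w i‖ ≤ 1) ∧ ∀ i, ‖v i - w i‖ ≤ (p : ℝ) ^ (-(n : ℤ))}
  add_mem' := by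
    rintro v v' ⟨w, hw, hw1, hv⟩ ⟨w', hw', hw1', hv'⟩
    refine ⟨w + w', W.add_mem hw hw', fun i => norm_add_le' _ _ _ (hw1 i) (hw1' i), fun i => ?_⟩
    have : (v + v') i - (w + w') i = (v i - w i) + (v' i - w' i) := by
      simp only [Pi.add_apply]; ring
    rw [this]
    exact norm_add_le' _ _ _ (hv i) (hv' i)
  zero_mem' := ⟨0, W.zero_mem, fun i => by simp, fun i => by
    have := pow_pos' (p := p) (-(n : ℤ))
    simpa using this.le⟩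
  smul_mem' := by
    rintro c v ⟨w, hw, hw1, hv⟩
    refine ⟨(c : ℚ_[p]) • w, W.smul_mem _ hw, fun i => ?_, fun i => ?_⟩
    · change ‖(c : ℚ_[p]) * w i‖ ≤ 1
      rw [norm_mul]
      exact mul_le_one₀ c.2 (norm_nonneg _) (hw1 i)
    · have : (c • v) i - ((c : ℚ_[p]) • w) i = (c : ℚ_[p]) * (v i - w i) := by
        have h1 : (c • v) i = (c : ℚ_[p]) * v i := rfl
        have h2 : ((c : ℚ_[p]) • w) i = (c : ℚ_[p]) * w i := rfl
        rw [h1, h2]; ring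
      rw [this, norm_mul]
      calc ‖(c : ℚ_[p])‖ * ‖v i - w i‖ ≤ 1 * (p : ℝ) ^ (-(n : ℤ)) :=
            mul_le_mul c.2 (hv i) (norm_nonneg _) zero_le_one
        _ = _ := one_mul _

theorem mem_trunc {W : Submodule ℚ_[p] (ι → ℚ_[p])} {n : ℕ} {v : ι → ℚ_[p]} :
    v ∈ trunc W n ↔ ∃ w ∈ W, (∀ i, ‖w i‖ ≤ 1) ∧ ∀ i, ‖v i - w i‖ ≤ (p : ℝ) ^ (-(n : ℤ)) := Iff.rfl

/-- the property that the integral matrix `c` maps `T ∩ W` to `(T ∩ W) + p ^ n T` -/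
def Pres (W : Submodule ℚ_[p] (ι → ℚ_[p])) (c : Matrix ι ι ℚ_[p]) (n : ℕ) : Prop :=
  ∀ w ∈ W, (∀ i, ‖w i‖ ≤ 1) → c *ᵥ w ∈ trunc W n

theorem pres_iff (W : Submodule ℚ_[p] (ι → ℚ_[p])) (c : Matrix ι ι ℚ_[p]) (n : ℕ)
    (hc : ∀ i j, ‖c i j‖ ≤ 1) : Pres W c n ↔ ∀ v ∈ trunc W n, c *ᵥ v ∈ trunc W n := by
  constructor
  · rintro h v ⟨w, hw, hw1, hv⟩
    obtain ⟨w', hw', hw1', h'⟩ := h w hw hw1
    refine ⟨w', hw', hw1', fun i => ?_⟩
    have h1 : (c *ᵥ v) i - w' i = ((c *ᵥ w) i - w' i) + (c *ᵥ (v - w)) i := by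
      rw [Matrix.mulVec_sub]; simp only [Pi.sub_apply]; ring
    rw [h1]
    apply norm_add_le' _ _ _ (h' i)
    have := norm_mulVec_le c (v - w) 1 _ zero_le_one (pow_pos' _).le hc
      (fun i => hv i) i
    rwa [one_mul] at this
  · intro h w hw hw1
    apply h
    exact ⟨w, hw, hw1, fun i => by
      have := pow_pos' (p := p) (-(n : ℤ))
      simpa using this.le⟩

/-- **Rigidity.** If some matrix which commutes with the algebra does not preserve `W`, the lattices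
`(T ∩ W) + p ^ n T` with large `n` are pairwise not equivalent. -/
theorem rigid {B : Type} [Ring B] (real : B →+* Matrix ι ι ℚ_[p])
    (W : Submodule ℚ_[p] (ι → ℚ_[p])) (c : Matrix ι ι ℚ_[p]) (hc : ∀ b, c * real b = real b * c)
    (w₀ : ι → ℚ_[p]) (hw₀ : w₀ ∈ W) (hcw : c *ᵥ w₀ ∉ W) :
    ∃ k : ℕ, ∀ n m, k ≤ n → n < m →
      ¬ ∃ a : Bˣ, (fun v => real a *ᵥ v) '' (trunc W n : Set (ι → ℚ_[p])) = trunc W m := by
  classical
  have hp : (1 : ℝ) < p := one_lt_p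
  have hp0 : (p : ℚ_[p]) ≠ 0 := by exact_mod_cast (Fact.out : p.Prime).ne_zero
  -- scale `c` and `w₀`
  obtain ⟨s, hs⟩ : ∃ s : ℕ, ∀ i j, ‖(((p : ℚ_[p]) ^ s) • c) i j‖ ≤ 1 := by
    obtain ⟨M, hM⟩ := (Set.finite_range fun x : ι × ι => ‖c x.1 x.2‖).bddAbove
    obtain ⟨k, hk⟩ := pow_unbounded_of_one_lt M hp
    refine ⟨k, fun i j => ?_⟩
    change ‖((p : ℚ_[p]) ^ k) * c i j‖ ≤ 1
    rw [norm_mul, norm_pow, Padic.norm_p, inv_pow]
    have hpk : (0 : ℝ) < (p : ℝ) ^ k := by positivity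
    rw [inv_mul_le_iff₀ hpk, mul_one]
    exact (hM ⟨(i, j), rfl⟩).trans hk.le
  obtain ⟨t, ht⟩ : ∃ t : ℕ, ∀ i, ‖(((p : ℚ_[p]) ^ t) • w₀) i‖ ≤ 1 := by
    obtain ⟨M, hM⟩ := (Set.finite_range fun x : ι => ‖w₀ x‖).bddAbove
    obtain ⟨k, hk⟩ := pow_unbounded_of_one_lt M hp
    refine ⟨k, fun i => ?_⟩
    change ‖((p : ℚ_[p]) ^ k) * w₀ i‖ ≤ 1
    rw [norm_mul, norm_pow, Padic.norm_p, inv_pow]
    have hpk : (0 : ℝ) < (p : ℝ) ^ k := by positivity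
    rw [inv_mul_le_iff₀ hpk, mul_one]
    exact (hM ⟨i, rfl⟩).trans hk.le
  set c' : Matrix ι ι ℚ_[p] := ((p : ℚ_[p]) ^ s) • c with hc'
  set w' : ι → ℚ_[p] := ((p : ℚ_[p]) ^ t) • w₀ with hw'
  have hw'W : w' ∈ W := W.smul_mem _ hw₀
  have hcw' : c' *ᵥ w' ∉ W := by
    intro h
    apply hcw
    have h1 : c' *ᵥ w' = ((p : ℚ_[p]) ^ s * (p : ℚ_[p]) ^ t) • (c *ᵥ w₀) := by
      rw [hc', hw', Matrix.smul_mulVec, Matrix.mulVec_smul, smul_smul]
    rw [h1] at h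
    have h2 := W.smul_mem (((p : ℚ_[p]) ^ s * (p : ℚ_[p]) ^ t)⁻¹) h
    rwa [smul_smul, inv_mul_cancel₀ (mul_ne_zero (pow_ne_zero _ hp0) (pow_ne_zero _ hp0)),
      one_smul] at h2
  have hcc' : ∀ b, c' * real b = real b * c' := by
    intro b
    rw [hc', smul_mul_assoc, mul_smul_comm, hc b]
  -- `W` is closed
  have hclosed : IsClosed (W : Set (ι → ℚ_[p])) := W.closed_of_finiteDimensional
  have hex : ∃ n, ¬ Pres W c' n := by
    by_contra hcon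
    push Not at hcon
    apply hcw'
    have : c' *ᵥ w' ∈ closure (W : Set (ι → ℚ_[p])) := by
      rw [Metric.mem_closure_iff]
      intro ε hε
      obtain ⟨N, hN⟩ := pow_unbounded_of_one_lt ((ε / 2)⁻¹) hp
      obtain ⟨w, hw, _, h⟩ := hcon N w' hw'W ht
      refine ⟨w, hw, ?_⟩
      rw [dist_eq_norm]
      have h2 : ‖c' *ᵥ w' - w‖ ≤ ε / 2 := by
        refine (pi_norm_le_iff_of_nonneg (by positivity)).2 fun i => (h i).trans ?_
        rw [_root_.zpow_neg, zpow_natCast, inv_le_comm₀ (by positivity) (by positivity)]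
        exact hN.le
      linarith
    rwa [hclosed.closure_eq] at this
  have hP0 : Pres W c' 0 := by
    intro w hw hw1
    refine ⟨0, W.zero_mem, fun i => by simp, fun i => ?_⟩
    have := norm_mulVec_le c' w 1 1 zero_le_one zero_le_one hs hw1 i
    simpa using this
  let N := Nat.find hex
  have hN : ¬ Pres W c' N := Nat.find_spec hex
  have hN0 : N ≠ 0 := by
    intro h; rw [h] at hN; exact hN hP0
  obtain ⟨k, hk⟩ := Nat.exists_eq_succ_of_ne_zero hN0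
  have hPk : Pres W c' k := by
    by_contra h
    have := Nat.find_min' hex h
    change N ≤ k at this
    omega
  rw [hk] at hN
  refine ⟨k, fun n m hkn hnm => ?_⟩
  rintro ⟨a, ha⟩
  -- preserving the one lattice is equivalent to preserving the other
  have key : ∀ c : Matrix ι ι ℚ_[p], (∀ b, c * real b = real b * c) →
      (∀ v ∈ trunc W n, c *ᵥ v ∈ trunc W n) → ∀ v ∈ trunc W m, c *ᵥ v ∈ trunc W m := by
    intro c hc h v hv
    have hv' : v ∈ (trunc W m : Set (ι → ℚ_[p])) := hv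
    rw [← ha] at hv'
    obtain ⟨w, hw, rfl⟩ := hv'
    have h1 : c *ᵥ (real a *ᵥ w) = real a *ᵥ (c *ᵥ w) := by
      rw [Matrix.mulVec_mulVec, Matrix.mulVec_mulVec, hc a]
    change c *ᵥ (real a *ᵥ w) ∈ (trunc W m : Set (ι → ℚ_[p]))
    rw [h1, ← ha]
    exact ⟨c *ᵥ w, h w hw, rfl⟩
  -- the matrix `p ^ (n - k) c'`
  set x : ℚ_[p] := (p : ℚ_[p]) ^ (n - k) with hx
  have hx0 : x ≠ 0 := pow_ne_zero _ hp0
  have hxn : ‖x‖ = (p : ℝ) ^ (-((n - k : ℕ) : ℤ)) := by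
    rw [hx, norm_pow, Padic.norm_p, _root_.zpow_neg, zpow_natCast, inv_pow]
  have hx1 : ‖x‖ ≤ 1 := by
    rw [hxn, ← zpow_zero (p : ℝ)]
    exact zpow_le_zpow_right₀ hp.le (by omega)
  have hci : ∀ i j, ‖(x • c') i j‖ ≤ 1 := by
    intro i j
    change ‖x * c' i j‖ ≤ 1
    rw [norm_mul]
    exact mul_le_one₀ hx1 (norm_nonneg _) (hs i j)
  have hP1 : Pres W (x • c') n := by
    intro w hw hw1
    obtain ⟨w1, h1, h2, h3⟩ := hPk w hw hw1
    refine ⟨x • w1, W.smul_mem _ h1, fun i => ?_, fun i => ?_⟩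
    · change ‖x * w1 i‖ ≤ 1
      rw [norm_mul]
      exact mul_le_one₀ hx1 (norm_nonneg _) (h2 i)
    · rw [Matrix.smul_mulVec]
      change ‖x * (c' *ᵥ w) i - x * w1 i‖ ≤ _
      rw [← mul_sub, norm_mul, hxn]
      calc (p : ℝ) ^ (-((n - k : ℕ) : ℤ)) * ‖(c' *ᵥ w) i - w1 i‖
          ≤ (p : ℝ) ^ (-((n - k : ℕ) : ℤ)) * (p : ℝ) ^ (-(k : ℤ)) :=
            mul_le_mul_of_nonneg_left (h3 i) (pow_pos' _).le
        _ = (p : ℝ) ^ (-(n : ℤ)) := by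
            rw [← zpow_add₀ (by positivity)]
            congr 1
            push_cast [Nat.cast_sub hkn]
            ring
  have hP2 : Pres W (x • c') m := by
    rw [pres_iff W _ _ hci] at hP1 ⊢
    refine key _ (fun b => ?_) hP1
    rw [smul_mul_assoc, mul_smul_comm, hcc' b]
  apply hN
  intro w hw hw1
  obtain ⟨w1, h1, _, h3⟩ := hP2 w hw hw1
  have hdist : ∀ i, ‖(c' *ᵥ w) i - (x⁻¹ • w1) i‖ ≤ (p : ℝ) ^ (-((k + 1 : ℕ) : ℤ)) := by
    intro i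
    have h4 := h3 i
    rw [Matrix.smul_mulVec] at h4
    have h5 : (c' *ᵥ w) i - (x⁻¹ • w1) i = x⁻¹ * ((x • c' *ᵥ w) i - w1 i) := by
      change (c' *ᵥ w) i - x⁻¹ * w1 i = x⁻¹ * (x * (c' *ᵥ w) i - w1 i)
      rw [mul_sub, inv_mul_cancel_left₀ hx0]
    rw [h5, norm_mul, norm_inv, hxn, ← _root_.zpow_neg, neg_neg]
    calc (p : ℝ) ^ (((n - k : ℕ) : ℤ)) * ‖(x • c' *ᵥ w) i - w1 i‖
        ≤ (p : ℝ) ^ (((n - k : ℕ) : ℤ)) * (p : ℝ) ^ (-(m : ℤ)) :=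
          mul_le_mul_of_nonneg_left h4 (pow_pos' _).le
      _ ≤ (p : ℝ) ^ (-((k + 1 : ℕ) : ℤ)) := by
          rw [← zpow_add₀ (by positivity)]
          refine zpow_le_zpow_right₀ hp.le ?_
          push_cast [Nat.cast_sub hkn]
          omega
  refine ⟨x⁻¹ • w1, W.smul_mem _ h1, fun i => ?_, hdist⟩
  have h6 : (x⁻¹ • w1) i = (c' *ᵥ w) i - ((c' *ᵥ w) i - (x⁻¹ • w1) i) := by ring
  rw [h6]
  apply norm_sub_le'
  · have := norm_mulVec_le c' w 1 1 zero_le_one zero_le_one hs hw1 i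
    simpa using this
  · refine (hdist i).trans ?_
    rw [← zpow_zero (p : ℝ)]
    exact zpow_le_zpow_right₀ hp.le (by omega)

end Pool.Agent.Helper95.ISO
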