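import Pool.Agent.Helper95.ISO.GapA

/-!
# Powers of the motive
-/

open Module Matrix

namespace Pool.Agent.Helper95.ISO

variable {p : ℕ} [Fact p.Prime] {κ : Type} [Fintype κ] [DecidableEq κ] {Γ : Type} [Monoid Γ]

/-- the diagonal action on the power -/
noncomputable def galPow (gal : Γ →* Matrix κ κ ℚ_[p]) (r : ℕ) (γ : Γ) :
    Matrix (Fin r × κ) (Fin r × κ) ℚ_[p] :=
  Matrix.of fun x y => if x.1 = y.1 then gal γ x.2 y.2 else 0

/-- the realization of the endomorphisms of the power -/
noncomputable def realPow {A : Type} [Ring A] (real : A →+* Matrix κ κ ℚ_[p]) (r : ℕ) :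
    Matrix (Fin r) (Fin r) A →+* Matrix (Fin r × κ) (Fin r × κ) ℚ_[p] :=
  ((Matrix.compRingEquiv (Fin r) κ ℚ_[p]) : _ →+* _).comp real.mapMatrix

theorem realPow_apply {A : Type} [Ring A] (real : A →+* Matrix κ κ ℚ_[p]) (r : ℕ)
    (X : Matrix (Fin r) (Fin r) A) (x y : Fin r × κ) :
    realPow real r X x y = real (X x.1 y.1) x.2 y.2 := rfl

theorem galPow_mulVec (gal : Γ →* Matrix κ κ ℚ_[p]) (r : ℕ) (γ : Γ) (v : Fin r × κ → ℚ_[p])
    (x : Fin r × κ) : (galPow gal r γ *ᵥ v) x = (gal γ *ᵥ fun y => v (x.1, y)) x.2 := by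
  unfold Matrix.mulVec dotProduct galPow
  rw [Fintype.sum_prod_type]
  rw [Finset.sum_eq_single x.1]
  · simp
  · intro b _ hb
    apply Finset.sum_eq_zero
    intro y _
    simp [Ne.symm hb]
  · intro h; exact absurd (Finset.mem_univ _) h

/-- semisimplicity -/
def SS (gal : Γ →* Matrix κ κ ℚ_[p]) : Prop :=
  ∀ W : Submodule ℚ_[p] (κ → ℚ_[p]), (∀ γ, ∀ v ∈ W, gal γ *ᵥ v ∈ W) →
    ∃ W' : Submodule ℚ_[p] (κ → ℚ_[p]), (∀ γ, ∀ v ∈ W', gal γ *ᵥ v ∈ W') ∧ IsCompl W W'

/-- stable subspaces of powers have stable complements -/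
theorem ss_pow (gal : Γ →* Matrix κ κ ℚ_[p]) (h : SS gal) (r : ℕ)
    (W : Submodule ℚ_[p] (Fin r × κ → ℚ_[p])) (hW : ∀ γ, ∀ v ∈ W, galPow gal r γ *ᵥ v ∈ W) :
    ∃ W' : Submodule ℚ_[p] (Fin r × κ → ℚ_[p]), (∀ γ, ∀ v ∈ W', galPow gal r γ *ᵥ v ∈ W') ∧
      IsCompl W W' := by
  classical
  let g : Γ → Module.End ℚ_[p] (κ → ℚ_[p]) := fun γ => Matrix.toLin' (gal γ)
  let S : Subalgebra ℚ_[p] (Module.End ℚ_[p] (κ → ℚ_[p])) := Algebra.adjoin ℚ_[p] (Set.range g)
  -- scalars
  have hsc : ∀ (c : ℚ_[p]) (v : κ → ℚ_[p]), (algebraMap ℚ_[p] S c) • v = c • v := by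
    intro c v; rfl
  -- the module `V` is semisimple
  have hV : IsSemisimpleModule S (κ → ℚ_[p]) := by
    rw [isSemisimpleModule_iff]
    refine ⟨fun W₀ => ?_⟩
    let W₁ : Submodule ℚ_[p] (κ → ℚ_[p]) :=
      { carrier := W₀
        add_mem' := W₀.add_mem
        zero_mem' := W₀.zero_mem
        smul_mem' := fun c v hv => by
          rw [← hsc]; exact W₀.smul_mem _ hv }
    obtain ⟨W₂, hst, hcompl⟩ := h W₁ (fun γ v hv => by
      have : (⟨g γ, Algebra.subset_adjoin ⟨γ, rfl⟩⟩ : S) • v ∈ W₀ := W₀.smul_mem _ hv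
      exact this)
    have hS : ∀ s ∈ S, ∀ v ∈ W₂, s v ∈ W₂ := by
      intro s hs
      induction hs using Algebra.adjoin_induction with
      | mem x hx => obtain ⟨γ, rfl⟩ := hx; exact fun v hv => hst γ v hv
      | algebraMap c => intro v hv; exact W₂.smul_mem c hv
      | add x y _ _ hx hy => intro v hv; exact W₂.add_mem (hx v hv) (hy v hv)
      | mul x y _ _ hx hy => intro v hv; exact hx _ (hy v hv)
    let W₃ : Submodule S (κ → ℚ_[p]) :=
      { carrier := W₂
        add_mem' := W₂.add_mem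
        zero_mem' := W₂.zero_mem
        smul_mem' := fun s v hv => hS s.1 s.2 v hv }
    refine ⟨W₃, ?_⟩
    constructor
    · rw [Submodule.disjoint_def]
      intro v h1 h2
      exact (Submodule.disjoint_def.1 hcompl.disjoint) v h1 h2
    · rw [codisjoint_iff, Submodule.eq_top_iff']
      intro v
      have : v ∈ W₁ ⊔ W₂ := by rw [hcompl.sup_eq_top]; trivial
      obtain ⟨a, ha, b, hb, hab⟩ := Submodule.mem_sup.1 this
      exact Submodule.mem_sup.2 ⟨a, ha, b, hb, hab⟩
  have hVr : IsSemisimpleModule S (Fin r → κ → ℚ_[p]) :=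
    IsSemisimpleModule.congr (Finsupp.linearEquivFunOnFinite S (κ → ℚ_[p]) (Fin r)).symm
  -- the submodule
  let cur : (Fin r → κ → ℚ_[p]) → (Fin r × κ → ℚ_[p]) := fun f x => f x.1 x.2
  have hS : ∀ s ∈ S, ∀ f : Fin r → κ → ℚ_[p], cur f ∈ W → cur (fun i => s (f i)) ∈ W := by
    intro s hs
    induction hs using Algebra.adjoin_induction with
    | mem x hx =>
      obtain ⟨γ, rfl⟩ := hx
      intro f hf
      have h1 := hW γ _ hf
      have h2 : galPow gal r γ *ᵥ cur f = cur (fun i => g γ (f i)) := by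
        funext x
        rw [galPow_mulVec]
        rfl
      rwa [h2] at h1
    | algebraMap c =>
      intro f hf
      exact W.smul_mem c hf
    | add x y _ _ hx hy =>
      intro f hf
      exact W.add_mem (hx f hf) (hy f hf)
    | mul x y _ _ hx hy =>
      intro f hf
      exact hx (fun i => y (f i)) (hy f hf)
  have hcl := (isSemisimpleModule_iff S (Fin r → κ → ℚ_[p])).1 hVr
  let W₁ : Submodule S (Fin r → κ → ℚ_[p]) :=
    { carrier := {f | cur f ∈ W}
      add_mem' := fun {f f'} hf hf' => W.add_mem hf hf'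
      zero_mem' := W.zero_mem
      smul_mem' := fun s f hf => hS s.1 s.2 f hf }
  obtain ⟨W₂, hW₂⟩ := exists_isCompl W₁
  let W₃ : Submodule ℚ_[p] (Fin r × κ → ℚ_[p]) :=
    { carrier := {v | (fun i y => v (i, y)) ∈ W₂}
      add_mem' := fun {f f'} hf hf' => W₂.add_mem hf hf'
      zero_mem' := W₂.zero_mem
      smul_mem' := fun c f hf => by
        have : (algebraMap ℚ_[p] S c) • (fun i y => f (i, y)) ∈ W₂ := W₂.smul_mem _ hf
        exact this }
  refine ⟨W₃, ?_, ?_⟩
  · intro γ v hv
    have h1 : (⟨g γ, Algebra.subset_adjoin ⟨γ, rfl⟩⟩ : S) • (fun i y => v (i, y)) ∈ W₂ :=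
      W₂.smul_mem _ hv
    have h2 : (fun i y => (galPow gal r γ *ᵥ v) (i, y)) =
        (⟨g γ, Algebra.subset_adjoin ⟨γ, rfl⟩⟩ : S) • (fun i y => v (i, y)) := by
      funext i y
      rw [galPow_mulVec]
      rfl
    change (fun i y => (galPow gal r γ *ᵥ v) (i, y)) ∈ W₂
    rw [h2]; exact h1
  · constructor
    · rw [Submodule.disjoint_def]
      intro v h1 h2
      have h3 := (Submodule.disjoint_def.1 hW₂.disjoint) (fun i y => v (i, y)) h1 h2
      funext x
      exact congrFun (congrFun h3 x.1) x.2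
    · rw [codisjoint_iff, Submodule.eq_top_iff']
      intro v
      have : (fun i y => v (i, y)) ∈ W₁ ⊔ W₂ := by rw [hW₂.sup_eq_top]; trivial
      obtain ⟨a, ha, b, hb, hab⟩ := Submodule.mem_sup.1 this
      refine Submodule.mem_sup.2 ⟨cur a, ha, cur b, hb, ?_⟩
      funext x
      exact congrFun (congrFun hab x.1) x.2

/-- **Stable subspaces of powers are images of algebraic idempotents.** -/
theorem exists_idem {A : Type} [Ring A] (gal : Γ →* Matrix κ κ ℚ_[p]) (real : A →+* Matrix κ κ ℚ_[p])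
    (hss : SS gal) (htate : ∀ X : Matrix κ κ ℚ_[p], (∀ γ, X * gal γ = gal γ * X) →
      X ∈ Submodule.span ℚ_[p] (Set.range real)) (r : ℕ)
    (W : Submodule ℚ_[p] (Fin r × κ → ℚ_[p])) (hW : ∀ γ, ∀ v ∈ W, galPow gal r γ *ᵥ v ∈ W) :
    ∃ e ∈ Submodule.span ℚ_[p] (Set.range (realPow real r)), e * e = e ∧
      ∀ v, v ∈ W ↔ e *ᵥ v = v := by
  classical
  obtain ⟨W', hW', hcompl⟩ := ss_pow gal hss r W hW
  let P := Submodule.projection W W' hcompl
  let e : Matrix (Fin r × κ) (Fin r × κ) ℚ_[p] := LinearMap.toMatrix' P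
  have heP : ∀ v, e *ᵥ v = P v := fun v => by
    rw [← Matrix.toLin'_apply, Matrix.toLin'_toMatrix']
  have hPW : ∀ v, v ∈ W ↔ P v = v := by
    intro v
    constructor
    · intro hv
      exact Submodule.projection_apply_left hcompl ⟨v, hv⟩
    · intro hv
      rw [← hv]
      exact Submodule.projection_apply_mem _ _
  have hPP : ∀ v, P (P v) = P v := fun v => (hPW (P v)).1 (Submodule.projection_apply_mem _ _)
  -- decomposition
  have hker : ∀ v, v - P v ∈ W' := by
    intro v
    have : v ∈ W ⊔ W' := by rw [hcompl.sup_eq_top]; trivial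
    obtain ⟨a, ha, b, hb, hab⟩ := Submodule.mem_sup.1 this
    have h1 : P a = a := (hPW a).1 ha
    have h2 : P b = 0 := (Submodule.projection_apply_eq_zero_iff hcompl).2 hb
    rw [← hab, map_add, h1, h2, add_zero, add_sub_cancel_left]
    exact hb
  have hcomm : ∀ γ v, P (galPow gal r γ *ᵥ v) = galPow gal r γ *ᵥ P v := by
    intro γ v
    have h1 : galPow gal r γ *ᵥ v = galPow gal r γ *ᵥ P v + galPow gal r γ *ᵥ (v - P v) := by
      rw [← Matrix.mulVec_add, add_sub_cancel]
    rw [h1, map_add]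
    rw [(hPW _).1 (hW γ _ (Submodule.projection_apply_mem hcompl v))]
    rw [(Submodule.projection_apply_eq_zero_iff hcompl).2 (hW' γ _ (hker v)), add_zero]
  have hce : ∀ γ, e * galPow gal r γ = galPow gal r γ * e := by
    intro γ
    apply Matrix.toLin'.injective
    ext1 x
    apply LinearMap.ext
    intro c
    simp only [LinearMap.comp_apply, Matrix.toLin'_apply]
    rw [← Matrix.mulVec_mulVec, ← Matrix.mulVec_mulVec, heP, heP, hcomm]
  -- blocks
  have hblock : ∀ i j : Fin r, (Matrix.of fun x y => e (i, x) (j, y)) ∈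
      Submodule.span ℚ_[p] (Set.range real) := by
    intro i j
    apply htate
    intro γ
    ext x y
    have h1 := congrFun (congrFun (hce γ) (i, x)) (j, y)
    rw [Matrix.mul_apply, Matrix.mul_apply, Fintype.sum_prod_type, Fintype.sum_prod_type] at h1
    rw [Finset.sum_eq_single j, Finset.sum_eq_single i] at h1
    · rw [Matrix.mul_apply, Matrix.mul_apply]
      simpa [galPow] using h1
    · intro b _ hb
      apply Finset.sum_eq_zero
      intro z _
      simp [galPow, Ne.symm hb]
    · intro h; exact absurd (Finset.mem_univ _) h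
    · intro b _ hb
      apply Finset.sum_eq_zero
      intro z _
      simp [galPow, hb]
    · intro h; exact absurd (Finset.mem_univ _) h
  -- embedding of blocks
  let emb : Fin r → Fin r → Matrix κ κ ℚ_[p] → Matrix (Fin r × κ) (Fin r × κ) ℚ_[p] :=
    fun i j X => Matrix.of fun x y => if x.1 = i ∧ y.1 = j then X x.2 y.2 else 0
  have hemb : ∀ i j, ∀ X ∈ Submodule.span ℚ_[p] (Set.range real),
      emb i j X ∈ Submodule.span ℚ_[p] (Set.range (realPow real r)) := by
    intro i j X hX
    induction hX using Submodule.span_induction with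
    | mem x hx =>
      obtain ⟨a, rfl⟩ := hx
      apply Submodule.subset_span
      refine ⟨Matrix.single i j a, ?_⟩
      ext x y
      rw [realPow_apply]
      by_cases h : x.1 = i ∧ y.1 = j
      · obtain ⟨h1, h2⟩ := h
        subst h1; subst h2
        simp [emb]
      · have h3 : (Matrix.single i j a : Matrix (Fin r) (Fin r) A) x.1 y.1 = 0 := by
          rw [Matrix.single_apply_of_ne]
          rintro ⟨h1, h2⟩
          exact h ⟨h1.symm, h2.symm⟩
        rw [h3, map_zero]
        simp only [emb, Matrix.of_apply, if_neg h]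
        rfl
    | zero =>
      have : emb i j 0 = 0 := by
        ext x y; simp [emb]
      rw [this]; exact Submodule.zero_mem _
    | add X Y _ _ hX hY =>
      have : emb i j (X + Y) = emb i j X + emb i j Y := by
        ext x y
        by_cases h : x.1 = i ∧ y.1 = j
        · simp [emb, h]
        · simp [emb, h]
      rw [this]; exact Submodule.add_mem _ hX hY
    | smul c X _ ih =>
      have : emb i j (c • X) = c • emb i j X := by
        ext x y
        by_cases h : x.1 = i ∧ y.1 = j
        · simp [emb, h]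
        · simp [emb, h]
      rw [this]; exact Submodule.smul_mem _ _ ih
  refine ⟨e, ?_, ?_, ?_⟩
  · have h1 : e = ∑ i, ∑ j, emb i j (Matrix.of fun x y => e (i, x) (j, y)) := by
      ext x y
      rw [Matrix.sum_apply, Finset.sum_eq_single x.1]
      · rw [Matrix.sum_apply, Finset.sum_eq_single y.1]
        · simp [emb]
        · intro b _ hb
          simp [emb, Ne.symm hb]
        · intro h; exact absurd (Finset.mem_univ _) h
      · intro b _ hb
        rw [Matrix.sum_apply]
        apply Finset.sum_eq_zero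
        intro z _
        simp [emb, Ne.symm hb]
      · intro h; exact absurd (Finset.mem_univ _) h
    rw [h1]
    exact Submodule.sum_mem _ fun i _ => Submodule.sum_mem _ fun j _ => hemb i j _ (hblock i j)
  · apply Matrix.toLin'.injective
    apply LinearMap.ext
    intro v
    rw [Matrix.toLin'_apply, Matrix.toLin'_apply, ← Matrix.mulVec_mulVec, heP, heP, hPP]
  · intro v
    rw [heP]
    exact hPW v

end Pool.Agent.Helper95.ISO
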