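import Pool.Agent.Helper95.ISO.GapB

/-!
# Lattices
-/

open Module Matrix

namespace Pool.Agent.Helper95.ISO

variable {p : ℕ} [Fact p.Prime] {ι : Type} [Fintype ι] [DecidableEq ι]

/-- a lattice: contains some `p ^ k T` and is contained in `p ^ (-k) T` -/
def IsLat (L : Submodule ℤ_[p] (ι → ℚ_[p])) : Prop :=
  ∃ k : ℕ, (∀ v : ι → ℚ_[p], (∀ i, ‖v i‖ ≤ (p : ℝ) ^ (-(k : ℤ))) → v ∈ L) ∧
    ∀ v ∈ L, ∀ i, ‖v i‖ ≤ (p : ℝ) ^ (k : ℤ)

theorem norm_p_pow (n : ℕ) : ‖(p : ℚ_[p]) ^ n‖ = (p : ℝ) ^ (-(n : ℤ)) := by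
  rw [norm_pow, Padic.norm_p, _root_.zpow_neg, zpow_natCast, inv_pow]

theorem p_ne : (p : ℚ_[p]) ≠ 0 := by exact_mod_cast (Fact.out : p.Prime).ne_zero

/-- a lattice has a basis -/
theorem exists_matrix (L : Submodule ℤ_[p] (ι → ℚ_[p])) (hL : IsLat L) :
    ∃ g : Matrix ι ι ℚ_[p], g.det ≠ 0 ∧
      ∀ v, v ∈ L ↔ ∃ t : ι → ℚ_[p], (∀ i, ‖t i‖ ≤ 1) ∧ v = g *ᵥ t := by
  classical
  obtain ⟨k, hk1, hk2⟩ := hL
  -- finite generation
  let f : (ι → ℤ_[p]) →ₗ[ℤ_[p]] (ι → ℚ_[p]) :=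
    { toFun := fun t i => ((p : ℚ_[p]) ^ k)⁻¹ * (t i : ℚ_[p])
      map_add' := by
        intro x y
        funext i
        simp [mul_add]
      map_smul' := by
        intro c x
        funext i
        change ((p : ℚ_[p]) ^ k)⁻¹ * ((c * x i : ℤ_[p]) : ℚ_[p]) =
          (c : ℚ_[p]) * (((p : ℚ_[p]) ^ k)⁻¹ * (x i : ℚ_[p]))
        push_cast
        ring }
  have hle : L ≤ LinearMap.range f := by
    intro v hv
    have hint : ∀ i, ‖(p : ℚ_[p]) ^ k * v i‖ ≤ 1 := by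
      intro i
      rw [norm_mul, norm_p_pow]
      calc (p : ℝ) ^ (-(k : ℤ)) * ‖v i‖ ≤ (p : ℝ) ^ (-(k : ℤ)) * (p : ℝ) ^ (k : ℤ) :=
            mul_le_mul_of_nonneg_left (hk2 v hv i) (pow_pos' _).le
        _ = 1 := by
            have := one_lt_p (p := p)
            rw [← zpow_add₀ (by positivity)]
            simp
    refine ⟨fun i => ⟨(p : ℚ_[p]) ^ k * v i, hint i⟩, ?_⟩
    funext i
    change ((p : ℚ_[p]) ^ k)⁻¹ * ((p : ℚ_[p]) ^ k * v i) = v i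
    rw [inv_mul_cancel_left₀ (pow_ne_zero _ p_ne)]
  have hfg : L.FG := by
    have hN : IsNoetherian ℤ_[p] (LinearMap.range f) := inferInstance
    exact isNoetherian_submodule.1 hN L hle
  have hspan : Submodule.span ℚ_[p] (L : Set (ι → ℚ_[p])) = ⊤ := by
    rw [Submodule.eq_top_iff']
    intro v
    rw [show v = ∑ i, v i • (Pi.single i (1 : ℚ_[p]) : ι → ℚ_[p]) by
      funext j
      simp [Finset.sum_apply, Pi.single_apply]]
    refine Submodule.sum_mem _ fun i _ => Submodule.smul_mem _ _ ?_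
    have h1 : ((p : ℚ_[p]) ^ k) • (Pi.single i (1 : ℚ_[p]) : ι → ℚ_[p]) ∈ L := by
      apply hk1
      intro j
      change ‖(p : ℚ_[p]) ^ k * (Pi.single i (1 : ℚ_[p]) : ι → ℚ_[p]) j‖ ≤ _
      by_cases hij : j = i
      · subst hij
        rw [Pi.single_eq_same, mul_one, norm_p_pow]
      · rw [Pi.single_eq_of_ne hij, mul_zero, norm_zero]
        exact (pow_pos' _).le
    have h2 := Submodule.smul_mem (Submodule.span ℚ_[p] (L : Set (ι → ℚ_[p])))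
      (((p : ℚ_[p]) ^ k)⁻¹) (Submodule.subset_span h1)
    rwa [smul_smul, inv_mul_cancel₀ (pow_ne_zero _ p_ne), one_smul] at h2
  have hlat : Submodule.IsLattice ℚ_[p] L := ⟨hfg, hspan⟩
  have hfree : Module.Free ℤ_[p] L := Submodule.IsLattice.free (K := ℚ_[p]) L
  have hrank : Module.finrank ℤ_[p] L = Fintype.card ι :=
    Submodule.IsLattice.finrank_of_pi (K := ℚ_[p]) L
  let b₀ := Module.finBasis ℤ_[p] L
  let e : Fin (Module.finrank ℤ_[p] L) ≃ ι := Fintype.equivOfCardEq (by rw [Fintype.card_fin, hrank])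
  let b := b₀.reindex e
  let g : Matrix ι ι ℚ_[p] := Matrix.of fun i j => (b j : ι → ℚ_[p]) i
  have hgt : ∀ t : ι → ℤ_[p], g *ᵥ (fun i => (t i : ℚ_[p])) = ((∑ j, t j • b j : L) : ι → ℚ_[p]) := by
    intro t
    funext i
    simp only [Matrix.mulVec, dotProduct]
    rw [Submodule.coe_sum, Finset.sum_apply]
    refine Finset.sum_congr rfl fun j _ => ?_
    change (b j : ι → ℚ_[p]) i * (t j : ℚ_[p]) = (t j : ℚ_[p]) * (b j : ι → ℚ_[p]) i
    ring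
  have hmem : ∀ v, v ∈ L ↔ ∃ t : ι → ℚ_[p], (∀ i, ‖t i‖ ≤ 1) ∧ v = g *ᵥ t := by
    intro v
    constructor
    · intro hv
      refine ⟨fun i => ((b.repr ⟨v, hv⟩ i : ℤ_[p]) : ℚ_[p]), fun i => (b.repr ⟨v, hv⟩ i).2, ?_⟩
      rw [hgt]
      have := b.sum_repr ⟨v, hv⟩
      exact (congrArg (fun x : L => (x : ι → ℚ_[p])) this).symm
    · rintro ⟨t, ht, rfl⟩
      have := hgt (fun i => ⟨t i, ht i⟩)
      have h2 : (fun i => ((⟨t i, ht i⟩ : ℤ_[p]) : ℚ_[p])) = t := rfl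
      rw [h2] at this
      rw [this]
      exact Submodule.coe_mem _
  refine ⟨g, ?_, hmem⟩
  -- the determinant
  have hcol : ∀ i, ∃ t : ι → ℚ_[p], g *ᵥ t = ((p : ℚ_[p]) ^ k) • (Pi.single i (1 : ℚ_[p]) : ι → ℚ_[p]) := by
    intro i
    have h1 : ((p : ℚ_[p]) ^ k) • (Pi.single i (1 : ℚ_[p]) : ι → ℚ_[p]) ∈ L := by
      apply hk1
      intro j
      change ‖(p : ℚ_[p]) ^ k * (Pi.single i (1 : ℚ_[p]) : ι → ℚ_[p]) j‖ ≤ _
      by_cases hij : j = i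
      · subst hij
        rw [Pi.single_eq_same, mul_one, norm_p_pow]
      · rw [Pi.single_eq_of_ne hij, mul_zero, norm_zero]
        exact (pow_pos' _).le
    obtain ⟨t, _, ht⟩ := (hmem _).1 h1
    exact ⟨t, ht.symm⟩
  choose t ht using hcol
  have hprod : g * (Matrix.of fun i j => t j i) = ((p : ℚ_[p]) ^ k) • (1 : Matrix ι ι ℚ_[p]) := by
    ext i j
    have h1 := congrFun (ht j) i
    rw [Matrix.mul_apply]
    simp only [Matrix.mulVec, dotProduct] at h1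
    change ∑ x, g i x * t j x = _
    rw [h1]
    change (p : ℚ_[p]) ^ k * (Pi.single j (1 : ℚ_[p]) : ι → ℚ_[p]) i = (p : ℚ_[p]) ^ k * (1 : Matrix ι ι ℚ_[p]) i j
    congr 1
    by_cases hij : i = j
    · subst hij; simp
    · rw [Pi.single_eq_of_ne hij, Matrix.one_apply_ne hij]
  intro hdet
  have h2 := congrArg Matrix.det hprod
  rw [Matrix.det_mul, hdet, zero_mul, Matrix.det_smul, Matrix.det_one, mul_one] at h2
  exact (pow_ne_zero _ (pow_ne_zero _ p_ne)) h2.symm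

/-- finitely many lattices between `p ^ k T` and `T` -/
theorem finite_between (k : ℕ) : {L : Submodule ℤ_[p] (ι → ℚ_[p]) |
    (∀ v : ι → ℚ_[p], (∀ i, ‖v i‖ ≤ (p : ℝ) ^ (-(k : ℤ))) → v ∈ L) ∧
      ∀ v ∈ L, ∀ i, ‖v i‖ ≤ 1}.Finite := by
  classical
  have hfin : Finite (ι → ZMod (p ^ k)) := by
    have : NeZero (p ^ k) := ⟨pow_ne_zero _ (Fact.out : p.Prime).ne_zero⟩
    infer_instance
  let F : Submodule ℤ_[p] (ι → ℚ_[p]) → Set (ι → ZMod (p ^ k)) := fun L =>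
    {x | ∃ t : ι → ℤ_[p], (fun i => (t i : ℚ_[p])) ∈ L ∧ ∀ i, PadicInt.toZModPow k (t i) = x i}
  apply Set.Finite.of_finite_image (f := F) (Set.toFinite _)
  have key : ∀ L L' : Submodule ℤ_[p] (ι → ℚ_[p]),
      (∀ v ∈ L, ∀ i, ‖v i‖ ≤ 1) →
      (∀ v : ι → ℚ_[p], (∀ i, ‖v i‖ ≤ (p : ℝ) ^ (-(k : ℤ))) → v ∈ L') → F L = F L' → L ≤ L' := by
    intro L L' h1 h2 hF v hv
    let t : ι → ℤ_[p] := fun i => ⟨v i, h1 v hv i⟩
    have ht : (fun i => PadicInt.toZModPow k (t i)) ∈ F L := ⟨t, hv, fun i => rfl⟩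
    rw [hF] at ht
    obtain ⟨t', ht', h3⟩ := ht
    have h4 : v - (fun i => (t' i : ℚ_[p])) ∈ L' := by
      apply h2
      intro i
      have h5 : PadicInt.toZModPow k (t i - t' i) = 0 := by
        rw [map_sub, h3 i, sub_self]
      have h6 : t i - t' i ∈ Ideal.span {(p : ℤ_[p]) ^ k} := by
        rw [← PadicInt.ker_toZModPow, RingHom.mem_ker]; exact h5
      have h7 := (PadicInt.norm_le_pow_iff_mem_span_pow _ _).2 h6
      exact h7
    have h5 := L'.add_mem h4 ht'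
    rwa [sub_add_cancel] at h5
  rintro L ⟨h1, h2⟩ L' ⟨h1', h2'⟩ hF
  exact le_antisymm (key L L' h2 h1' hF) (key L' L h2' h1 hF.symm)

end Pool.Agent.Helper95.ISO
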