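import Pool.Agent.Helper95.ISO.GapC

/-!
# Finiteness of the number of classes of stable lattices
-/

open Module Matrix Filter Topology

namespace Pool.Agent.Helper95.ISO

variable {p : ℕ} [Fact p.Prime] {ι : Type} [Fintype ι] [DecidableEq ι]

/-- the equivalence of lattices under the units of an algebra -/
def Equiv {B : Type} [Ring B] (real : B →+* Matrix ι ι ℚ_[p])
    (L L' : Submodule ℤ_[p] (ι → ℚ_[p])) : Prop :=
  ∃ a : Bˣ, (fun v => real a *ᵥ v) '' (L : Set (ι → ℚ_[p])) = L'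

theorem Equiv.refl {B : Type} [Ring B] (real : B →+* Matrix ι ι ℚ_[p])
    (L : Submodule ℤ_[p] (ι → ℚ_[p])) : Equiv real L L :=
  ⟨1, by simp⟩

theorem Equiv.symm {B : Type} [Ring B] {real : B →+* Matrix ι ι ℚ_[p]}
    {L L' : Submodule ℤ_[p] (ι → ℚ_[p])} (h : Equiv real L L') : Equiv real L' L := by
  obtain ⟨a, ha⟩ := h
  refine ⟨a⁻¹, ?_⟩
  rw [← ha, Set.image_image]
  have : (fun v => real ↑a⁻¹ *ᵥ (real ↑a *ᵥ v)) = fun v => v := by
    funext v
    rw [Matrix.mulVec_mulVec, ← map_mul, Units.inv_mul, map_one, Matrix.one_mulVec]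
  rw [this, Set.image_id']

theorem Equiv.trans {B : Type} [Ring B] {real : B →+* Matrix ι ι ℚ_[p]}
    {L L' L'' : Submodule ℤ_[p] (ι → ℚ_[p])} (h : Equiv real L L') (h' : Equiv real L' L'') :
    Equiv real L L'' := by
  obtain ⟨a, ha⟩ := h
  obtain ⟨b, hb⟩ := h'
  refine ⟨b * a, ?_⟩
  rw [← hb, ← ha, Set.image_image]
  have : (fun v => real ↑(b * a) *ᵥ v) = fun v => real ↑b *ᵥ (real ↑a *ᵥ v) := by
    funext v
    rw [Matrix.mulVec_mulVec, ← map_mul, Units.val_mul]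
  rw [this]

/-- the image of a lattice -/
def img (h : Matrix ι ι ℚ_[p]) (L : Submodule ℤ_[p] (ι → ℚ_[p])) :
    Submodule ℤ_[p] (ι → ℚ_[p]) where
  carrier := (fun v => h *ᵥ v) '' L
  add_mem' := by
    rintro _ _ ⟨v, hv, rfl⟩ ⟨w, hw, rfl⟩
    exact ⟨v + w, L.add_mem hv hw, Matrix.mulVec_add _ _ _⟩
  zero_mem' := ⟨0, L.zero_mem, Matrix.mulVec_zero _⟩
  smul_mem' := by
    rintro c _ ⟨v, hv, rfl⟩
    refine ⟨c • v, L.smul_mem c hv, ?_⟩
    change h *ᵥ ((c : ℚ_[p]) • v) = (c : ℚ_[p]) • (h *ᵥ v)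
    rw [Matrix.mulVec_smul]

/-- a bound for the entries -/
theorem exists_pow_bound (h : Matrix ι ι ℚ_[p]) : ∃ s : ℕ, ∀ i j, ‖h i j‖ ≤ (p : ℝ) ^ (s : ℤ) := by
  obtain ⟨M, hM⟩ := (Set.finite_range fun x : ι × ι => ‖h x.1 x.2‖).bddAbove
  obtain ⟨k, hk⟩ := pow_unbounded_of_one_lt M (one_lt_p (p := p))
  refine ⟨k, fun i j => ?_⟩
  rw [zpow_natCast]
  exact (hM ⟨(i, j), rfl⟩).trans hk.le

/-- the image of a lattice by an invertible matrix is a lattice -/
theorem IsLat.img {L : Submodule ℤ_[p] (ι → ℚ_[p])} (hL : IsLat L) (h g : Matrix ι ι ℚ_[p])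
    (hhg : h * g = 1) : IsLat (img h L) := by
  obtain ⟨k, hk1, hk2⟩ := hL
  obtain ⟨s, hs⟩ := exists_pow_bound h
  obtain ⟨t, ht⟩ := exists_pow_bound g
  have hp : (1 : ℝ) < p := one_lt_p
  refine ⟨k + s + t, ?_, ?_⟩
  · intro v hv
    refine ⟨g *ᵥ v, hk1 _ fun i => ?_, ?_⟩
    · have := norm_mulVec_le g v _ _ (pow_pos' _).le (pow_pos' _).le ht hv i
      refine this.trans ?_
      rw [← zpow_add₀ (by positivity)]
      exact zpow_le_zpow_right₀ hp.le (by push_cast; omega)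
    · change h *ᵥ (g *ᵥ v) = v
      rw [Matrix.mulVec_mulVec, hhg, Matrix.one_mulVec]
  · rintro _ ⟨v, hv, rfl⟩ i
    have := norm_mulVec_le h v _ _ (pow_pos' _).le (pow_pos' _).le hs (hk2 v hv) i
    refine this.trans ?_
    rw [← zpow_add₀ (by positivity)]
    exact zpow_le_zpow_right₀ hp.le (by push_cast; omega)

/-- integral matrices have integral determinants -/
theorem norm_det_le (g : Matrix ι ι ℚ_[p]) (hg : ∀ i j, ‖g i j‖ ≤ 1) : ‖g.det‖ ≤ 1 := by
  let G : Matrix ι ι ℤ_[p] := Matrix.of fun i j => ⟨g i j, hg i j⟩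
  have : g = G.map (algebraMap ℤ_[p] ℚ_[p]) := by ext i j; rfl
  rw [this, ← RingHom.mapMatrix_apply, ← RingHom.map_det]
  exact G.det.2

/-- `‖det‖ < 1` for `e + p (1 - e)` if `e` is an idempotent different from one -/
theorem norm_det_idem (e : Matrix ι ι ℚ_[p]) (he : e * e = e) (hdet : e.det = 0) :
    ‖(e + (p : ℚ_[p]) • (1 - e)).det‖ < 1 := by
  have hpow : ∀ n : ℕ, (e + (p : ℚ_[p]) • (1 - e)) ^ n = e + ((p : ℚ_[p]) ^ n) • (1 - e) := by
    intro n
    induction n with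
    | zero => simp
    | succ n ih =>
      rw [pow_succ, ih]
      have h1 : e * (1 - e) = 0 := by rw [mul_sub, he, mul_one, sub_self]
      have h2 : (1 - e) * e = 0 := by rw [sub_mul, he, one_mul, sub_self]
      have h3 : (1 - e) * (1 - e) = 1 - e := by rw [mul_sub, h2, mul_one, sub_zero]
      rw [add_mul, mul_add, mul_add, he, mul_smul_comm, h1, smul_zero, add_zero, smul_mul_assoc,
        h2, smul_zero, zero_add, smul_mul_smul_comm, h3, pow_succ]
  -- the determinant of the powers tends to `det e = 0`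
  have hlim : Tendsto (fun n : ℕ => (e + ((p : ℚ_[p]) ^ n) • (1 - e)).det) atTop (𝓝 0) := by
    have hc : Continuous fun x : ℚ_[p] => (e + x • (1 - e)).det := by
      apply Continuous.matrix_det
      fun_prop
    have h1 : Tendsto (fun n : ℕ => (p : ℚ_[p]) ^ n) atTop (𝓝 0) := by
      apply tendsto_pow_atTop_nhds_zero_of_norm_lt_one
      rw [Padic.norm_p]
      exact inv_lt_one_of_one_lt₀ one_lt_p
    have h2 := (hc.tendsto 0).comp h1
    simp only [zero_smul, add_zero, hdet] at h2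
    exact h2
  by_contra hcon
  push Not at hcon
  have h3 : ∀ n : ℕ, 1 ≤ ‖(e + ((p : ℚ_[p]) ^ n) • (1 - e)).det‖ := by
    intro n
    rw [← hpow, Matrix.det_pow, norm_pow]
    exact one_le_pow₀ hcon
  have h4 := (tendsto_zero_iff_norm_tendsto_zero.1 hlim)
  have h5 := (h4.eventually (gt_mem_nhds (show (0 : ℝ) < 1 by norm_num))).exists
  obtain ⟨n, hn⟩ := h5
  exact absurd (h3 n) (not_le.2 hn)

/-- left version of the approximation by units -/
theorem exists_unit_left {B : Type} [Ring B] [Algebra ℚ B] [FiniteDimensional ℚ B]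
    (real : B →+* Matrix ι ι ℚ_[p])
    (hinj : Function.Injective real) (h g : Matrix ι ι ℚ_[p]) (hgh : g * h = 1) (hhg : h * g = 1)
    (hh : h ∈ Submodule.span ℚ_[p] (Set.range real)) :
    ∃ (a : Bˣ) (u v : Matrix ι ι ℚ_[p]), real a = u * h ∧ u * v = 1 ∧ v * u = 1 ∧
      (∀ i j, ‖u i j‖ ≤ 1) ∧ (∀ i j, ‖v i j‖ ≤ 1) := by
  obtain ⟨M, hM⟩ : ∃ M : ℝ, ∀ i j, ‖g i j‖ ≤ M := by
    obtain ⟨M, hM⟩ := (Set.finite_range fun x : ι × ι => ‖g x.1 x.2‖).bddAbove
    exact ⟨M, fun i j => hM ⟨(i, j), rfl⟩⟩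
  have hp : (1 : ℝ) < p := one_lt_p
  have hpos := pow_pos' (p := p) (-((0 : ℤ) + 1))
  obtain ⟨a, ha⟩ := approx real h hh ((p : ℝ) ^ (-((0 : ℤ) + 1)) / (|M| + 1)) (by positivity)
  let u := real a * g
  have hu : ∀ i j, ‖(u - 1) i j‖ ≤ (p : ℝ) ^ (-(((0 : ℕ) : ℤ) + 1)) := by
    intro i j
    have h1 : u - 1 = (real a - h) * g := by rw [Matrix.sub_mul, hhg]
    rw [h1]
    have := norm_mul_le' (real a - h) g _ (|M| + 1) (by positivity) (by positivity) ha
      (fun i j => (hM i j).trans ((le_abs_self M).trans (by linarith [abs_nonneg M]))) i j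
    refine this.trans (le_of_eq ?_)
    field_simp
    push_cast
    rfl
  obtain ⟨v, huv, hvu, hv⟩ := exists_inverse u 0 hu
  have hone : ∀ w : Matrix ι ι ℚ_[p], (∀ i j, ‖(w - 1) i j‖ ≤ (p : ℝ) ^ (-(((0 : ℕ) : ℤ) + 1))) →
      ∀ i j, ‖w i j‖ ≤ 1 := by
    intro w hw i j
    have h1 : w i j = (w - 1) i j + (1 : Matrix ι ι ℚ_[p]) i j := by simp
    rw [h1]
    apply norm_add_le'
    · refine (hw i j).trans ?_
      rw [← zpow_zero (p : ℝ)]
      exact zpow_le_zpow_right₀ hp.le (by norm_num)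
    · by_cases hij : i = j
      · subst hij; simp
      · rw [Matrix.one_apply_ne hij, norm_zero]; exact zero_le_one
  have hreal : real a = u * h := by
    change real a = real a * g * h
    rw [Matrix.mul_assoc, hgh, Matrix.mul_one]
  have hw1 : real a * (g * v) = 1 := by
    rw [hreal]
    calc u * h * (g * v) = u * (h * g) * v := by simp only [Matrix.mul_assoc]
      _ = 1 := by rw [hhg, Matrix.mul_one, huv]
  have hw2 : (g * v) * real a = 1 := by
    rw [hreal]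
    calc g * v * (u * h) = g * (v * u) * h := by simp only [Matrix.mul_assoc]
      _ = 1 := by rw [hvu, Matrix.mul_one, hgh]
  obtain ⟨a', ha'⟩ := isUnit_of_real real hinj a _ hw1 hw2
  exact ⟨a', u, v, by rw [ha']; exact hreal, huv, hvu, hone u hu, hone v hv⟩

end Pool.Agent.Helper95.ISO
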