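import Pool.Agent.Helper95.ISO.GapD

/-!
# Finiteness of the number of classes of stable lattices: the compactness argument
-/

open Module Matrix Filter Topology

namespace Pool.Agent.Helper95.ISO

variable {p : ℕ} [Fact p.Prime] {ι : Type} [Fintype ι] [DecidableEq ι]

/-- minimal lattices -/
def IsMin {B : Type} [Ring B] (real : B →+* Matrix ι ι ℚ_[p])
    (L : Submodule ℤ_[p] (ι → ℚ_[p])) : Prop :=
  (∀ v ∈ L, ∀ i, ‖v i‖ ≤ 1) ∧
    ∀ a : Bˣ, (∀ v ∈ L, ∀ i, ‖(real a *ᵥ v) i‖ ≤ 1) → ‖(real a).det‖ ≤ 1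

/-- every lattice is equivalent to a minimal one -/
theorem exists_min {B : Type} [Ring B] [Algebra ℚ B] [FiniteDimensional ℚ B]
    (real : B →+* Matrix ι ι ℚ_[p]) (hinj : Function.Injective real)
    (L : Submodule ℤ_[p] (ι → ℚ_[p])) (hL : IsLat L) :
    ∃ a : Bˣ, IsMin real (img (real a) L) := by
  classical
  obtain ⟨g, hg, hLg⟩ := exists_matrix L hL
  have hp : (1 : ℝ) < p := one_lt_p
  -- units have nonzero determinants
  have hdet : ∀ a : Bˣ, (real a).det ≠ 0 := by
    intro a h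
    have : (real ↑a * real ↑a⁻¹).det = 1 := by
      rw [← map_mul, Units.mul_inv, map_one, Matrix.det_one]
    rw [Matrix.det_mul, h, zero_mul] at this
    exact zero_ne_one this
  let P : ℤ → Prop := fun z => ∃ a : Bˣ, (∀ v ∈ L, ∀ i, ‖(real a *ᵥ v) i‖ ≤ 1) ∧
    ‖(real a).det‖ = (p : ℝ) ^ z
  -- bounded above
  have hb : ∃ b : ℤ, ∀ z, P z → z ≤ b := by
    refine ⟨g.det.valuation, ?_⟩
    rintro z ⟨a, ha, hz⟩
    have h1 : ‖(real a * g).det‖ ≤ 1 := by
      apply norm_det_le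
      intro i j
      have h2 : (real a * g) i j = (real a *ᵥ (g *ᵥ Pi.single j 1)) i := by
        rw [Matrix.mulVec_mulVec]; simp
      rw [h2]
      apply ha
      rw [hLg]
      refine ⟨Pi.single j 1, fun k => ?_, rfl⟩
      by_cases hk : k = j
      · subst hk; simp
      · rw [Pi.single_eq_of_ne hk, norm_zero]; exact zero_le_one
    rw [Matrix.det_mul, norm_mul, hz, Padic.norm_eq_zpow_neg_valuation hg,
      ← zpow_add₀ (by positivity), ← zpow_zero (p : ℝ)] at h1
    have h3 := (zpow_le_zpow_iff_right₀ hp).1 h1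
    omega
  -- nonempty
  have hne : ∃ z, P z := by
    obtain ⟨k, _, hk2⟩ := hL
    -- the scalar `p ^ k`
    have hpk : (algebraMap ℚ B ((p : ℚ) ^ k)) * (algebraMap ℚ B (((p : ℚ) ^ k)⁻¹)) = 1 := by
      rw [← map_mul, mul_inv_cancel₀, map_one]
      exact pow_ne_zero _ (by exact_mod_cast (Fact.out : p.Prime).ne_zero)
    have hpk' : (algebraMap ℚ B (((p : ℚ) ^ k)⁻¹)) * (algebraMap ℚ B ((p : ℚ) ^ k)) = 1 := by
      rw [← map_mul, inv_mul_cancel₀, map_one]
      exact pow_ne_zero _ (by exact_mod_cast (Fact.out : p.Prime).ne_zero)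
    let a : Bˣ := ⟨_, _, hpk, hpk'⟩
    have hra : real a = ((p ^ k : ℕ) : Matrix ι ι ℚ_[p]) := by
      change real (algebraMap ℚ B ((p : ℚ) ^ k)) = _
      rw [show ((p : ℚ) ^ k) = ((p ^ k : ℕ) : ℚ) by push_cast; rfl, map_natCast, map_natCast]
    refine ⟨-((real a).det).valuation, a, ?_, Padic.norm_eq_zpow_neg_valuation (hdet a)⟩
    intro v hv i
    rw [hra, Matrix.natCast_mulVec]
    change ‖((p ^ k : ℕ) : ℚ_[p]) * v i‖ ≤ 1
    rw [Nat.cast_pow]
    rw [norm_mul, norm_p_pow]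
    calc (p : ℝ) ^ (-(k : ℤ)) * ‖v i‖ ≤ (p : ℝ) ^ (-(k : ℤ)) * (p : ℝ) ^ (k : ℤ) :=
          mul_le_mul_of_nonneg_left (hk2 v hv i) (pow_pos' _).le
      _ = 1 := by
          rw [← zpow_add₀ (by positivity)]
          simp
  obtain ⟨z, ⟨a, ha, hz⟩, hmax⟩ := Int.exists_greatest_of_bdd hb hne
  refine ⟨a, ?_, ?_⟩
  · rintro _ ⟨v, hv, rfl⟩ i
    exact ha v hv i
  · intro b hb'
    have h1 : P (-((real (b * a : Bˣ)).det).valuation) := by
      refine ⟨b * a, ?_, Padic.norm_eq_zpow_neg_valuation (hdet _)⟩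
      intro v hv i
      have := hb' (real a *ᵥ v) ⟨v, hv, rfl⟩ i
      rwa [Matrix.mulVec_mulVec, ← map_mul, ← Units.val_mul] at this
    have h2 := hmax _ h1
    have h3 : ‖(real (b * a : Bˣ)).det‖ ≤ ‖(real a).det‖ := by
      rw [hz, Padic.norm_eq_zpow_neg_valuation (hdet _)]
      exact zpow_le_zpow_right₀ hp.le h2
    rw [Units.val_mul, map_mul, Matrix.det_mul, norm_mul] at h3
    have h4 : 0 < ‖(real a).det‖ := norm_pos_iff.2 (hdet a)
    nlinarith [norm_nonneg (real b).det]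

/-- **Minimal stable lattices contain a fixed lattice.** -/
theorem min_bounded {B : Type} [Ring B] [Algebra ℚ B] [FiniteDimensional ℚ B]
    (real : B →+* Matrix ι ι ℚ_[p]) (hinj : Function.Injective real) {Γ : Type}
    (gal : Γ → Matrix ι ι ℚ_[p])
    (hidem : ∀ W : Submodule ℚ_[p] (ι → ℚ_[p]), (∀ γ, ∀ v ∈ W, gal γ *ᵥ v ∈ W) →
      ∃ e ∈ Submodule.span ℚ_[p] (Set.range real), e * e = e ∧ ∀ v, v ∈ W ↔ e *ᵥ v = v) :
    ∃ k : ℕ, ∀ L : Submodule ℤ_[p] (ι → ℚ_[p]), IsLat L → (∀ γ, ∀ v ∈ L, gal γ *ᵥ v ∈ L) →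
      IsMin real L → ∀ v : ι → ℚ_[p], (∀ i, ‖v i‖ ≤ (p : ℝ) ^ (-(k : ℤ))) → v ∈ L := by
  classical
  have hp : (1 : ℝ) < p := one_lt_p
  by_contra hcon
  push Not at hcon
  choose L hLat hst hmin v hv hvL using hcon
  choose g hg hLg using fun k => exists_matrix (L k) (hLat k)
  -- the matrices are integral
  have hgi : ∀ k i j, ‖g k i j‖ ≤ 1 := by
    intro k i j
    have h2 : g k i j = (g k *ᵥ Pi.single j 1) i := by simp
    rw [h2]
    apply (hmin k).1
    rw [hLg]
    refine ⟨Pi.single j 1, fun l => ?_, rfl⟩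
    by_cases hl : l = j
    · subst hl; simp
    · rw [Pi.single_eq_of_ne hl, norm_zero]; exact zero_le_one
  -- compactness
  have hcompact : ∀ x : ℕ → ι → ι → ℚ_[p], (∀ k i j, ‖x k i j‖ ≤ 1) →
      ∃ (y : ι → ι → ℚ_[p]) (φ : ℕ → ℕ), (∀ i j, ‖y i j‖ ≤ 1) ∧ StrictMono φ ∧
        Tendsto (x ∘ φ) atTop (𝓝 y) := by
    intro x hx
    let X : ℕ → ι → ι → ℤ_[p] := fun k i j => ⟨x k i j, hx k i j⟩
    obtain ⟨Y, φ, hφ, hlim⟩ := CompactSpace.tendsto_subseq X
    refine ⟨fun i j => Y i j, φ, fun i j => (Y i j).2, hφ, ?_⟩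
    rw [tendsto_pi_nhds]
    intro i
    rw [tendsto_pi_nhds]
    intro j
    have h1 := (tendsto_pi_nhds.1 ((tendsto_pi_nhds.1 hlim) i)) j
    exact (continuous_subtype_val.tendsto _).comp h1
  obtain ⟨G, φ, hG1, hφ, hlim⟩ := hcompact (fun k => g k) hgi
  have hlim' : ∀ i j, Tendsto (fun k => g (φ k) i j) atTop (𝓝 (G i j)) := by
    intro i j
    exact (tendsto_pi_nhds.1 ((tendsto_pi_nhds.1 hlim) i)) j
  let Gm : Matrix ι ι ℚ_[p] := Matrix.of G
  -- entries of products converge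
  have hmul : ∀ (x : Matrix ι ι ℚ_[p]) i j,
      Tendsto (fun k => (x * g (φ k)) i j) atTop (𝓝 ((x * Gm) i j)) := by
    intro x i j
    simp only [Matrix.mul_apply]
    apply tendsto_finsetSum
    intro l _
    exact (hlim' l j).const_mul _
  by_cases hdet : Gm.det = 0
  · -- the limit is singular
    let W : Submodule ℚ_[p] (ι → ℚ_[p]) := LinearMap.range (Matrix.toLin' Gm)
    have hWst : ∀ γ, ∀ v ∈ W, gal γ *ᵥ v ∈ W := by
      intro γ
      -- `gal γ * g k = g k * u k`
      have hu : ∀ k, ∃ u : ι → ι → ℚ_[p], (∀ i j, ‖u i j‖ ≤ 1) ∧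
          gal γ * g k = g k * Matrix.of u := by
        intro k
        have h1 : ∀ j, ∃ t : ι → ℚ_[p], (∀ i, ‖t i‖ ≤ 1) ∧
            gal γ *ᵥ (g k *ᵥ Pi.single j 1) = g k *ᵥ t := by
          intro j
          have h2 : g k *ᵥ Pi.single j 1 ∈ L k := by
            rw [hLg]
            refine ⟨Pi.single j 1, fun l => ?_, rfl⟩
            by_cases hl : l = j
            · subst hl; simp
            · rw [Pi.single_eq_of_ne hl, norm_zero]; exact zero_le_one
          exact (hLg k _).1 (hst k γ _ h2)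
        choose t ht1 ht2 using h1
        refine ⟨fun i j => t j i, fun i j => ht1 j i, ?_⟩
        ext i j
        have h3 := congrFun (ht2 j) i
        rw [Matrix.mulVec_mulVec] at h3
        have h4 : (gal γ * g k) i j = ((gal γ * g k) *ᵥ Pi.single j 1) i := by simp
        rw [h4, h3, Matrix.mul_apply]
        rfl
      choose u hu1 hu2 using hu
      obtain ⟨U, ψ, _, hψ, hUlim⟩ := hcompact (fun k => u (φ k)) (fun k => hu1 (φ k))
      have hUlim' : ∀ i j, Tendsto (fun k => u (φ (ψ k)) i j) atTop (𝓝 (U i j)) := by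
        intro i j
        exact (tendsto_pi_nhds.1 ((tendsto_pi_nhds.1 hUlim) i)) j
      have heq : gal γ * Gm = Gm * Matrix.of U := by
        ext i j
        have h1 : Tendsto (fun k => (gal γ * g (φ (ψ k))) i j) atTop (𝓝 ((gal γ * Gm) i j)) :=
          (hmul (gal γ) i j).comp hψ.tendsto_atTop
        have h2 : Tendsto (fun k => (g (φ (ψ k)) * Matrix.of (u (φ (ψ k)))) i j) atTop
            (𝓝 ((Gm * Matrix.of U) i j)) := by
          simp only [Matrix.mul_apply]
          apply tendsto_finsetSum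
          intro l _
          exact ((hlim' i l).comp hψ.tendsto_atTop).mul (hUlim' l j)
        have h3 : (fun k => (gal γ * g (φ (ψ k))) i j) =
            fun k => (g (φ (ψ k)) * Matrix.of (u (φ (ψ k)))) i j := by
          funext k; rw [hu2]
        rw [h3] at h1
        exact tendsto_nhds_unique h1 h2
      rintro _ ⟨x, rfl⟩
      refine ⟨Matrix.of U *ᵥ x, ?_⟩
      rw [Matrix.toLin'_apply, Matrix.toLin'_apply, Matrix.mulVec_mulVec, Matrix.mulVec_mulVec, heq]
    obtain ⟨e, heE, hee, heW⟩ := hidem W hWst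
    -- `(1 - e) G = 0`
    have heG : (1 - e) * Gm = 0 := by
      ext i j
      have h1 : e *ᵥ (Gm *ᵥ Pi.single j 1) = Gm *ᵥ Pi.single j 1 :=
        (heW _).1 ⟨Pi.single j 1, by rw [Matrix.toLin'_apply]⟩
      have h2 := congrFun h1 i
      rw [Matrix.mulVec_mulVec] at h2
      rw [Matrix.sub_mul, Matrix.one_mul, Matrix.sub_apply]
      simp only [Matrix.mulVec_single_one, Matrix.col_apply] at h2
      rw [h2, sub_self]; rfl
    -- `det e = 0`
    have hdete : e.det = 0 := by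
      by_contra hne
      apply hne
      -- `e` is invertible, so `e = 1`, so `G` is surjective
      exfalso
      have he1 : e = 1 := by
        have h1 : e * e⁻¹ = 1 := Matrix.mul_nonsing_inv e (isUnit_iff_ne_zero.2 hne)
        calc e = e * (e * e⁻¹) := by rw [h1, mul_one]
          _ = (e * e) * e⁻¹ := by rw [mul_assoc]
          _ = 1 := by rw [hee, h1]
      have hsurj : Function.Surjective (Matrix.toLin' Gm) := by
        intro w
        have : w ∈ W := (heW w).2 (by rw [he1, Matrix.one_mulVec])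
        exact this
      have h2 : IsUnit (Matrix.toLin' Gm) :=
        (LinearMap.isUnit_iff_range_eq_top _).2 (LinearMap.range_eq_top.2 hsurj)
      have h3 : IsUnit (LinearMap.det (Matrix.toLin' Gm)) :=
        (LinearMap.isUnit_iff_isUnit_det _).1 h2
      rw [LinearMap.det_toLin'] at h3
      exact h3.ne_zero hdet
    -- the enlarging element
    let q : Matrix ι ι ℚ_[p] := e + (p : ℚ_[p]) • (1 - e)
    let h : Matrix ι ι ℚ_[p] := e + (p : ℚ_[p])⁻¹ • (1 - e)
    have h1 : e * (1 - e) = 0 := by rw [mul_sub, hee, mul_one, sub_self]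
    have h2 : (1 - e) * e = 0 := by rw [sub_mul, hee, one_mul, sub_self]
    have h3 : (1 - e) * (1 - e) = 1 - e := by rw [mul_sub, h2, mul_one, sub_zero]
    have hqh : q * h = 1 := by
      simp only [q, h]
      rw [add_mul, mul_add, mul_add, hee, mul_smul_comm, h1, smul_zero, add_zero, smul_mul_assoc,
        h2, smul_zero, zero_add, smul_mul_smul_comm, h3, mul_inv_cancel₀ p_ne, one_smul,
        add_sub_cancel]
    have hhq : h * q = 1 := by
      simp only [q, h]
      rw [add_mul, mul_add, mul_add, hee, mul_smul_comm, h1, smul_zero, add_zero, smul_mul_assoc,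
        h2, smul_zero, zero_add, smul_mul_smul_comm, h3, inv_mul_cancel₀ p_ne, one_smul,
        add_sub_cancel]
    have hhE : h ∈ Submodule.span ℚ_[p] (Set.range real) := by
      refine Submodule.add_mem _ heE (Submodule.smul_mem _ _ (Submodule.sub_mem _ ?_ heE))
      exact Submodule.subset_span ⟨1, map_one real⟩
    obtain ⟨a, u, v', hau, huv, hvu, hui, hvi⟩ := exists_unit_left real hinj h q hqh hhq hhE
    -- eventually `(1 - e) g k` is divisible by `p`
    have hev : ∀ᶠ k in atTop, ∀ i j, ‖((1 - e) * g (φ k)) i j‖ ≤ (p : ℝ)⁻¹ := by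
      rw [eventually_all]
      intro i
      rw [eventually_all]
      intro j
      have h4 := hmul (1 - e) i j
      rw [heG] at h4
      have h5 := (tendsto_zero_iff_norm_tendsto_zero.1 h4)
      have hpi : (0 : ℝ) < (p : ℝ)⁻¹ := by positivity
      exact (h5.eventually (gt_mem_nhds hpi)).mono fun k hk => hk.le
    obtain ⟨k, hk⟩ := hev.exists
    -- contradiction with minimality
    have hint : ∀ i j, ‖(h * g (φ k)) i j‖ ≤ 1 := by
      intro i j
      have h4 : h * g (φ k) = g (φ k) - (1 - e) * g (φ k) + (p : ℚ_[p])⁻¹ • ((1 - e) * g (φ k)) := by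
        simp only [h]
        rw [add_mul, smul_mul_assoc]
        congr 1
        rw [sub_mul, one_mul, sub_sub_cancel]
      rw [h4, Matrix.add_apply, Matrix.sub_apply, Matrix.smul_apply, smul_eq_mul]
      have hpinv : (p : ℝ)⁻¹ ≤ 1 := inv_le_one_of_one_le₀ hp.le
      apply norm_add_le'
      · exact norm_sub_le' _ _ _ (hgi _ i j) ((hk i j).trans hpinv)
      · rw [norm_mul, norm_inv, Padic.norm_p, inv_inv]
        calc (p : ℝ) * ‖((1 - e) * g (φ k)) i j‖ ≤ p * (p : ℝ)⁻¹ :=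
              mul_le_mul_of_nonneg_left (hk i j) (by positivity)
          _ = 1 := mul_inv_cancel₀ (by positivity)
    have hle := (hmin (φ k)).2 a (by
      intro w hw i
      obtain ⟨t, ht, rfl⟩ := (hLg (φ k) w).1 hw
      have h5 : real a *ᵥ (g (φ k) *ᵥ t) = u *ᵥ ((h * g (φ k)) *ᵥ t) := by
        rw [hau, Matrix.mulVec_mulVec, Matrix.mulVec_mulVec, Matrix.mul_assoc]
      rw [h5]
      have h6 := fun i => norm_mulVec_le (h * g (φ k)) t 1 1 zero_le_one zero_le_one hint ht i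
      have h7 := norm_mulVec_le u _ 1 (1 * 1) zero_le_one (by norm_num) hui h6 i
      simpa using h7)
    have hdq := norm_det_idem e hee hdete
    have hd1 : ‖q.det‖ * ‖h.det‖ = 1 := by
      rw [← norm_mul, ← Matrix.det_mul, hqh, Matrix.det_one, norm_one]
    have hdu : ‖u.det‖ = 1 := by
      have h8 := norm_det_le u hui
      have h9 := norm_det_le v' hvi
      have h10 : ‖u.det‖ * ‖v'.det‖ = 1 := by
        rw [← norm_mul, ← Matrix.det_mul, huv, Matrix.det_one, norm_one]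
      nlinarith [norm_nonneg u.det, norm_nonneg v'.det]
    rw [hau, Matrix.det_mul, norm_mul, hdu, one_mul] at hle
    have hq0 : 0 ≤ ‖q.det‖ := norm_nonneg _
    change ‖q.det‖ < 1 at hdq
    nlinarith [norm_nonneg h.det]
  · -- the limit is invertible
    have hGG : Gm⁻¹ * Gm = 1 := Matrix.nonsing_inv_mul Gm (isUnit_iff_ne_zero.2 hdet)
    have hGG' : Gm * Gm⁻¹ = 1 := Matrix.mul_nonsing_inv Gm (isUnit_iff_ne_zero.2 hdet)
    obtain ⟨s, hs⟩ := exists_pow_bound Gm⁻¹
    have hev : ∀ᶠ k in atTop, ∀ i j, ‖(Gm⁻¹ * g (φ k) - 1) i j‖ ≤ (p : ℝ) ^ (-(((0 : ℕ) : ℤ) + 1)) := by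
      rw [eventually_all]
      intro i
      rw [eventually_all]
      intro j
      have h4 : Tendsto (fun k => (Gm⁻¹ * g (φ k) - 1) i j) atTop (𝓝 0) := by
        have h5 := (hmul Gm⁻¹ i j).sub_const ((1 : Matrix ι ι ℚ_[p]) i j)
        rw [hGG, sub_self] at h5
        exact h5
      have h5 := (tendsto_zero_iff_norm_tendsto_zero.1 h4)
      exact (h5.eventually (gt_mem_nhds (pow_pos' _))).mono fun k hk => hk.le
    obtain ⟨k, hk, hks⟩ := (hev.and (eventually_ge_atTop s)).exists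
    obtain ⟨w, huw, hwu, hw⟩ := exists_inverse _ 0 hk
    have hwi : ∀ i j, ‖w i j‖ ≤ 1 := by
      intro i j
      have h1 : w i j = (w - 1) i j + (1 : Matrix ι ι ℚ_[p]) i j := by simp
      rw [h1]
      apply norm_add_le'
      · refine (hw i j).trans ?_
        rw [← zpow_zero (p : ℝ)]
        exact zpow_le_zpow_right₀ hp.le (by norm_num)
      · by_cases hij : i = j
        · subst hij; simp
        · rw [Matrix.one_apply_ne hij, norm_zero]; exact zero_le_one
    apply hvL (φ k)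
    rw [hLg]
    refine ⟨w *ᵥ (Gm⁻¹ *ᵥ v (φ k)), fun i => ?_, ?_⟩
    · have h1 : ∀ i, ‖(Gm⁻¹ *ᵥ v (φ k)) i‖ ≤ 1 := by
        intro i
        have h2 := norm_mulVec_le Gm⁻¹ (v (φ k)) _ _ (pow_pos' _).le (pow_pos' _).le hs
          (hv (φ k)) i
        refine h2.trans ?_
        rw [← zpow_add₀ (by positivity), ← zpow_zero (p : ℝ)]
        refine zpow_le_zpow_right₀ hp.le ?_
        have h3 : k ≤ φ k := hφ.id_le k
        have h4 : s ≤ φ k := hks.trans h3
        omega
      have h2 := norm_mulVec_le w _ 1 1 zero_le_one zero_le_one hwi h1 i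
      simpa using h2
    · rw [Matrix.mulVec_mulVec, Matrix.mulVec_mulVec]
      have h1 : g (φ k) * w = Gm := by
        calc g (φ k) * w = (Gm * Gm⁻¹) * g (φ k) * w := by rw [hGG', Matrix.one_mul]
          _ = Gm * ((Gm⁻¹ * g (φ k)) * w) := by simp only [Matrix.mul_assoc]
          _ = Gm := by rw [huw, Matrix.mul_one]
      rw [h1, hGG', Matrix.one_mulVec]

/-- **Finitely many classes of stable lattices.** -/
theorem finitely_many {B : Type} [Ring B] [Algebra ℚ B] [FiniteDimensional ℚ B]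
    (real : B →+* Matrix ι ι ℚ_[p]) (hinj : Function.Injective real) {Γ : Type}
    (gal : Γ → Matrix ι ι ℚ_[p]) (hcomm : ∀ b γ, real b * gal γ = gal γ * real b)
    (hidem : ∀ W : Submodule ℚ_[p] (ι → ℚ_[p]), (∀ γ, ∀ v ∈ W, gal γ *ᵥ v ∈ W) →
      ∃ e ∈ Submodule.span ℚ_[p] (Set.range real), e * e = e ∧ ∀ v, v ∈ W ↔ e *ᵥ v = v) :
    ∃ F : Set (Submodule ℤ_[p] (ι → ℚ_[p])), F.Finite ∧
      ∀ L : Submodule ℤ_[p] (ι → ℚ_[p]), IsLat L → (∀ γ, ∀ v ∈ L, gal γ *ᵥ v ∈ L) →
        ∃ L' ∈ F, Equiv real L L' := by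
  obtain ⟨k, hk⟩ := min_bounded real hinj gal hidem
  refine ⟨_, finite_between (p := p) (ι := ι) k, ?_⟩
  intro L hL hst
  obtain ⟨a, ha⟩ := exists_min real hinj L hL
  have hLat : IsLat (img (real a) L) := hL.img _ (real ↑a⁻¹) (by
    rw [← map_mul, Units.mul_inv, map_one])
  have hst' : ∀ γ, ∀ v ∈ img (real a) L, gal γ *ᵥ v ∈ img (real a) L := by
    rintro γ _ ⟨v, hv, rfl⟩
    refine ⟨gal γ *ᵥ v, hst γ v hv, ?_⟩
    change real a *ᵥ (gal γ *ᵥ v) = gal γ *ᵥ (real a *ᵥ v)
    rw [Matrix.mulVec_mulVec, Matrix.mulVec_mulVec, hcomm]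
  exact ⟨img (real a) L, ⟨hk _ hLat hst' ha, ha.1⟩, a, rfl⟩

end Pool.Agent.Helper95.ISO
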