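import Pool.Agent.Helper95.ISO.GapE

/-!
# The gap theorem
-/

open scoped TensorProduct
open Module Matrix

namespace Pool.Agent.Helper95.ISO

variable {p : ℕ} [Fact p.Prime] {κ : Type} [Fintype κ] [DecidableEq κ]

/-- **Complements stable under the commutant.** -/
theorem com_compl {k K A : Type*} [Field k] [CharZero k] [Field K] [Algebra k K]
    [Ring A] [Algebra k A] [FiniteDimensional k A] [IsSemisimpleRing A]
    (real : A →ₐ[k] Matrix κ κ K) (W : Submodule K (κ → K))
    (hW : ∀ c : Matrix κ κ K, (∀ a, c * real a = real a * c) → ∀ v ∈ W, c *ᵥ v ∈ W) :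
    ∃ W' : Submodule K (κ → K), IsCompl W W' ∧
      ∀ c : Matrix κ κ K, (∀ a, c * real a = real a * c) → ∀ v ∈ W', c *ᵥ v ∈ W' := by
  classical
  let V := κ → K
  let lin : Matrix κ κ K ≃ₐ[K] Module.End K (κ → K) := Matrix.toLinAlgEquiv'
  let Φ : (K ⊗[k] A) →ₐ[K] Module.End K V :=
    Algebra.TensorProduct.lift (Algebra.ofId K (Module.End K V))
      ((lin.toAlgHom.restrictScalars k).comp real) (fun c a => by
      rw [Algebra.ofId_apply]
      exact Algebra.commute_algebraMap_left c _)
  have hΦ : ∀ c a v, Φ (c ⊗ₜ[k] a) v = c • (real a *ᵥ v) := by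
    intro c a v
    simp only [Φ, Algebra.TensorProduct.lift_tmul, Algebra.ofId_apply]
    rw [← Algebra.smul_def]
    rfl
  have hss : IsSemisimpleRing (K ⊗[k] A) := semisimple_baseChange k K A
  let mod : Module (K ⊗[k] A) V := Module.compHom V (Φ : (K ⊗[k] A) →+* Module.End K V)
  have hsm : ∀ (r : K ⊗[k] A) (v : V), r • v = Φ r v := fun r v => rfl
  have hsc : ∀ (c : K) (v : V), (c ⊗ₜ[k] (1 : A)) • v = c • v := by
    intro c v
    rw [hsm, hΦ, map_one, Matrix.one_mulVec]
  have hfinite : Module.Finite (K ⊗[k] A) V := by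
    obtain ⟨s, hs⟩ := (Module.Finite.fg_top : (⊤ : Submodule K V).FG)
    refine ⟨⟨s, ?_⟩⟩
    rw [eq_top_iff]
    intro v _
    have hv : v ∈ Submodule.span K (s : Set V) := by rw [hs]; trivial
    induction hv using Submodule.span_induction with
    | mem x hx => exact Submodule.subset_span hx
    | zero => exact Submodule.zero_mem _
    | add x y _ _ hx hy => exact Submodule.add_mem _ (hx trivial) (hy trivial)
    | smul c x _ hx =>
      rw [← hsc]
      exact Submodule.smul_mem _ _ (hx trivial)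
  have hS : IsSemisimpleRing (Module.End (K ⊗[k] A) V) := IsSemisimpleRing.moduleEnd _ _
  -- elements of the commutant give endomorphisms
  let ofCom : ∀ c : Matrix κ κ K, (∀ a, c * real a = real a * c) → Module.End (K ⊗[k] A) V :=
    fun c hc =>
    { toFun := fun v => c *ᵥ v
      map_add' := fun v w => Matrix.mulVec_add _ _ _
      map_smul' := by
        intro r v
        simp only [RingHom.id_apply]
        induction r using TensorProduct.induction_on with
        | zero => rw [zero_smul, zero_smul]; exact Matrix.mulVec_zero _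
        | tmul x a =>
          rw [hsm, hsm, hΦ, hΦ]
          rw [Matrix.mulVec_smul, Matrix.mulVec_mulVec, Matrix.mulVec_mulVec, hc]
        | add x y hx hy =>
          rw [add_smul, add_smul, ← hx, ← hy]; exact Matrix.mulVec_add _ _ _ }
  let W₁ : Submodule (Module.End (K ⊗[k] A) V) V :=
    { carrier := W
      add_mem' := W.add_mem
      zero_mem' := W.zero_mem
      smul_mem' := by
        intro s v hv
        change s v ∈ W
        -- `s` is given by a matrix of the commutant
        have hsK : ∀ (c : K) (w : V), s (c • w) = c • s w := by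
          intro c w
          rw [← hsc, ← hsc, map_smul]
        let s' : Module.End K V :=
          { toFun := s
            map_add' := s.map_add
            map_smul' := hsK }
        let c : Matrix κ κ K := lin.symm s'
        have hcv : ∀ w, c *ᵥ w = s w := by
          intro w
          have h1 : lin c = s' := AlgEquiv.apply_symm_apply _ _
          have h2 := congrArg (fun f : Module.End K V => f w) h1
          exact h2
        have hc : ∀ a, c * real a = real a * c := by
          intro a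
          apply lin.injective
          rw [map_mul, map_mul]
          apply LinearMap.ext
          intro w
          change c *ᵥ (real a *ᵥ w) = real a *ᵥ (c *ᵥ w)
          rw [hcv, hcv]
          have h1 : real a *ᵥ w = ((1 : K) ⊗ₜ[k] a) • w := by rw [hsm, hΦ, one_smul]
          have h2 : real a *ᵥ (s w) = ((1 : K) ⊗ₜ[k] a) • s w := by rw [hsm, hΦ, one_smul]
          rw [h1, h2, map_smul]
        have := hW c hc v hv
        rwa [hcv] at this }
  obtain ⟨W₂, hW₂⟩ := exists_isCompl W₁
  let W₃ : Submodule K (κ → K) :=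
    { carrier := W₂
      add_mem' := W₂.add_mem
      zero_mem' := W₂.zero_mem
      smul_mem' := by
        intro c v hv
        have h1 : ofCom (c • 1) (by intro a; simp) • v ∈ W₂ := W₂.smul_mem _ hv
        have h2 : ofCom (c • 1) (by intro a; simp) • v = c • v := by
          change (c • (1 : Matrix κ κ K)) *ᵥ v = c • v
          rw [Matrix.smul_mulVec, Matrix.one_mulVec]
        rw [h2] at h1
        exact h1 }
  refine ⟨W₃, ⟨?_, ?_⟩, ?_⟩
  · rw [Submodule.disjoint_def]
    intro v h1 h2
    exact (Submodule.disjoint_def.1 hW₂.disjoint) v h1 h2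
  · rw [codisjoint_iff, Submodule.eq_top_iff']
    intro v
    have : v ∈ W₁ ⊔ W₂ := by rw [hW₂.sup_eq_top]; trivial
    obtain ⟨a, ha, b, hb, hab⟩ := Submodule.mem_sup.1 this
    exact Submodule.mem_sup.2 ⟨a, ha, b, hb, hab⟩
  · intro c hc v hv
    have h1 : ofCom c hc • v ∈ W₂ := W₂.smul_mem _ hv
    exact h1

/-- block diagonal matrices with equal blocks -/
noncomputable def dgm (r : ℕ) (c : Matrix κ κ ℚ_[p]) : Matrix (Fin r × κ) (Fin r × κ) ℚ_[p] :=
  Matrix.of fun x y => if x.1 = y.1 then c x.2 y.2 else 0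

theorem dgm_mulVec (r : ℕ) (c : Matrix κ κ ℚ_[p]) (v : Fin r × κ → ℚ_[p])
    (x : Fin r × κ) : (dgm r c *ᵥ v) x = (c *ᵥ fun y => v (x.1, y)) x.2 := by
  unfold Matrix.mulVec dotProduct dgm
  rw [Fintype.sum_prod_type]
  rw [Finset.sum_eq_single x.1]
  · simp
  · intro b _ hb
    apply Finset.sum_eq_zero
    intro y _
    simp [Ne.symm hb]
  · intro h; exact absurd (Finset.mem_univ _) h

theorem dgm_comm {A : Type} [Ring A] (real : A →+* Matrix κ κ ℚ_[p]) (r : ℕ) (c : Matrix κ κ ℚ_[p])
    (hc : ∀ a, c * real a = real a * c) (X : Matrix (Fin r) (Fin r) A) :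
    dgm r c * realPow real r X = realPow real r X * dgm r c := by
  ext x y
  rw [Matrix.mul_apply, Matrix.mul_apply, Fintype.sum_prod_type, Fintype.sum_prod_type]
  rw [Finset.sum_eq_single x.1, Finset.sum_eq_single y.1]
  · have h1 := congrFun (congrFun (hc (X x.1 y.1)) x.2) y.2
    rw [Matrix.mul_apply, Matrix.mul_apply] at h1
    simpa [dgm, realPow_apply] using h1
  · intro b _ hb
    apply Finset.sum_eq_zero
    intro z _
    simp [dgm, hb]
  · intro h; exact absurd (Finset.mem_univ _) h
  · intro b _ hb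
    apply Finset.sum_eq_zero
    intro z _
    simp [dgm, Ne.symm hb]
  · intro h; exact absurd (Finset.mem_univ _) h

variable {Γ : Type} [Monoid Γ] {A : Type} [Ring A] [Algebra ℚ A] [FiniteDimensional ℚ A]
  [IsSemisimpleRing A]

/-- the Tate conjecture for the endomorphisms, and semisimplicity -/
def TateSS (gal : Γ →* Matrix κ κ ℚ_[p]) (real : A →+* Matrix κ κ ℚ_[p]) : Prop :=
  SS gal ∧ ∀ X : Matrix κ κ ℚ_[p], (∀ γ, X * gal γ = gal γ * X) →
    X ∈ Submodule.span ℚ_[p] (Set.range real)

/-- **If the conjecture fails there is a subspace of the square which is not stable under the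
commutant.** -/
theorem exists_bad (gal : Γ →* Matrix κ κ ℚ_[p]) (real : A →+* Matrix κ κ ℚ_[p])
    (heq : ∀ a γ, real a * gal γ = gal γ * real a) (h : ¬ TateSS gal real) :
    ∃ (W : Submodule ℚ_[p] (Fin 2 × κ → ℚ_[p])) (c : Matrix (Fin 2 × κ) (Fin 2 × κ) ℚ_[p])
      (w₀ : Fin 2 × κ → ℚ_[p]), (∀ γ, ∀ v ∈ W, galPow gal 2 γ *ᵥ v ∈ W) ∧
      (∀ X, c * realPow real 2 X = realPow real 2 X * c) ∧ w₀ ∈ W ∧ c *ᵥ w₀ ∉ W := by
  classical
  by_cases hss : SS gal
  · -- the conjecture for endomorphisms fails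
    have h1 : ¬ ∀ X : Matrix κ κ ℚ_[p], (∀ γ, X * gal γ = gal γ * X) →
        X ∈ Submodule.span ℚ_[p] (Set.range real) := fun h' => h ⟨hss, h'⟩
    push Not at h1
    obtain ⟨X, hX, hXn⟩ := h1
    have h2 : ¬ ∀ Y : Matrix κ κ ℚ_[p],
        (∀ a, Y * (RingHom.toRatAlgHom real) a = (RingHom.toRatAlgHom real) a * Y) →
        X * Y = Y * X := fun h' => hXn (matrix_mem_span (RingHom.toRatAlgHom real) X h')
    push Not at h2
    obtain ⟨Y, hY, hXY⟩ := h2
    let W : Submodule ℚ_[p] (Fin 2 × κ → ℚ_[p]) :=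
      { carrier := {v | (fun y => v (1, y)) = X *ᵥ fun y => v (0, y)}
        add_mem' := by
          intro v w hv hw
          change (fun y => (v + w) (1, y)) = X *ᵥ fun y => (v + w) (0, y)
          have h3 : (fun y => (v + w) (1, y)) = (fun y => v (1, y)) + fun y => w (1, y) := rfl
          have h4 : (fun y => (v + w) (0, y)) = (fun y => v (0, y)) + fun y => w (0, y) := rfl
          rw [h3, h4, Matrix.mulVec_add, ← hv, ← hw]
        zero_mem' := by
          change (fun y => (0 : Fin 2 × κ → ℚ_[p]) (1, y)) =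
            X *ᵥ fun y => (0 : Fin 2 × κ → ℚ_[p]) (0, y)
          have h4 : (fun y => (0 : Fin 2 × κ → ℚ_[p]) (0, y)) = (0 : κ → ℚ_[p]) := rfl
          rw [h4, Matrix.mulVec_zero]
          rfl
        smul_mem' := by
          intro c v hv
          change (fun y => (c • v) (1, y)) = X *ᵥ fun y => (c • v) (0, y)
          have h3 : (fun y => (c • v) (1, y)) = c • (fun y => v (1, y)) := rfl
          have h4 : (fun y => (c • v) (0, y)) = c • (fun y => v (0, y)) := rfl
          rw [h3, h4, Matrix.mulVec_smul, ← hv] }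
    have hmemW : ∀ v, v ∈ W ↔ (fun y => v (1, y)) = X *ᵥ fun y => v (0, y) := fun v => Iff.rfl
    -- a vector where `X Y ≠ Y X`
    obtain ⟨x, hx⟩ : ∃ x : κ → ℚ_[p], (X * Y) *ᵥ x ≠ (Y * X) *ᵥ x := by
      by_contra hcon
      push Not at hcon
      apply hXY
      apply Matrix.toLin'.injective
      apply LinearMap.ext
      intro v
      rw [Matrix.toLin'_apply, Matrix.toLin'_apply]
      exact hcon v
    let w₀ : Fin 2 × κ → ℚ_[p] := fun z => if z.1 = 0 then x z.2 else (X *ᵥ x) z.2
    refine ⟨W, dgm 2 Y, w₀, ?_, fun M => dgm_comm real 2 Y hY M, ?_, ?_⟩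
    · intro γ v hv
      rw [hmemW] at hv ⊢
      have h3 : (fun y => (galPow gal 2 γ *ᵥ v) (1, y)) = gal γ *ᵥ fun y => v (1, y) := by
        funext y; rw [galPow_mulVec]
      have h4 : (fun y => (galPow gal 2 γ *ᵥ v) (0, y)) = gal γ *ᵥ fun y => v (0, y) := by
        funext y; rw [galPow_mulVec]
      rw [h3, h4, hv, Matrix.mulVec_mulVec, Matrix.mulVec_mulVec, hX]
    · rw [hmemW]
      funext y
      simp [w₀]
    · rw [hmemW]
      intro h3
      have h4 : (fun y => (dgm 2 Y *ᵥ w₀) (1, y)) = Y *ᵥ (X *ᵥ x) := by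
        funext y
        rw [dgm_mulVec]
        simp [w₀]
      have h5 : (fun y => (dgm 2 Y *ᵥ w₀) (0, y)) = Y *ᵥ x := by
        funext y
        rw [dgm_mulVec]
        simp [w₀]
      rw [h4, h5, Matrix.mulVec_mulVec, Matrix.mulVec_mulVec] at h3
      exact hx h3.symm
  · -- semisimplicity fails
    unfold SS at hss
    push Not at hss
    obtain ⟨W₀, hst, hno⟩ := hss
    have h1 : ∃ c : Matrix κ κ ℚ_[p], (∀ a, c * real a = real a * c) ∧ ∃ v ∈ W₀, c *ᵥ v ∉ W₀ := by
      by_contra hcon
      push Not at hcon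
      obtain ⟨W', hc, hW'⟩ := com_compl (RingHom.toRatAlgHom real) W₀ (fun c hc v hv => hcon c hc v hv)
      exact hno W' (fun γ v hv => hW' (gal γ) (fun a => (heq a γ).symm) v hv) hc
    obtain ⟨c, hc, x, hx, hcx⟩ := h1
    let W : Submodule ℚ_[p] (Fin 2 × κ → ℚ_[p]) :=
      { carrier := {v | (fun y => v (0, y)) ∈ W₀}
        add_mem' := fun {v w} hv hw => W₀.add_mem hv hw
        zero_mem' := W₀.zero_mem
        smul_mem' := fun c v hv => W₀.smul_mem c hv }
    have hmemW : ∀ v, v ∈ W ↔ (fun y => v (0, y)) ∈ W₀ := fun v => Iff.rfl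
    let w₀ : Fin 2 × κ → ℚ_[p] := fun z => x z.2
    refine ⟨W, dgm 2 c, w₀, ?_, fun M => dgm_comm real 2 c hc M, hx, ?_⟩
    · intro γ v hv
      rw [hmemW] at hv ⊢
      have h4 : (fun y => (galPow gal 2 γ *ᵥ v) (0, y)) = gal γ *ᵥ fun y => v (0, y) := by
        funext y; rw [galPow_mulVec]
      rw [h4]
      exact hst γ _ hv
    · rw [hmemW]
      have h5 : (fun y => (dgm 2 c *ᵥ w₀) (0, y)) = c *ᵥ x := by
        funext y
        rw [dgm_mulVec]
      rw [h5]
      exact hcx

end Pool.Agent.Helper95.ISO
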