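import Pool.Agent.Helper95.ISO.GapF

/-!
# The gap theorem: the equivalences
-/

open Module Matrix

namespace Pool.Agent.Helper95.ISO

variable {p : ℕ} [Fact p.Prime]

section general

variable {ι : Type} [Fintype ι] [DecidableEq ι]

theorem trunc_le_one (W : Submodule ℚ_[p] (ι → ℚ_[p])) (n : ℕ) (v : ι → ℚ_[p])
    (hv : v ∈ trunc W n) (i : ι) : ‖v i‖ ≤ 1 := by
  obtain ⟨w, _, hw1, h⟩ := hv
  have hp : (1 : ℝ) < p := one_lt_p
  have h1 : v i = w i + (v i - w i) := by ring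
  rw [h1]
  apply norm_add_le' _ _ _ (hw1 i)
  refine (h i).trans ?_
  rw [← zpow_zero (p : ℝ)]
  exact zpow_le_zpow_right₀ hp.le (by omega)

theorem mem_trunc_of_small (W : Submodule ℚ_[p] (ι → ℚ_[p])) (n m : ℕ) (hnm : n ≤ m)
    (v : ι → ℚ_[p]) (hv : ∀ i, ‖v i‖ ≤ (p : ℝ) ^ (-(m : ℤ))) : v ∈ trunc W n := by
  have hp : (1 : ℝ) < p := one_lt_p
  refine ⟨0, W.zero_mem, fun i => by simp, fun i => ?_⟩
  rw [Pi.zero_apply, sub_zero]
  exact (hv i).trans (zpow_le_zpow_right₀ hp.le (by omega))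

theorem isLat_trunc (W : Submodule ℚ_[p] (ι → ℚ_[p])) (n : ℕ) : IsLat (trunc W n) := by
  have hp : (1 : ℝ) < p := one_lt_p
  refine ⟨n, fun v hv => mem_trunc_of_small W n n le_rfl v hv, fun v hv i => ?_⟩
  refine (trunc_le_one W n v hv i).trans ?_
  rw [← zpow_zero (p : ℝ)]
  exact zpow_le_zpow_right₀ hp.le (by omega)

theorem trunc_stable (W : Submodule ℚ_[p] (ι → ℚ_[p])) (n : ℕ) (γ : Matrix ι ι ℚ_[p])
    (hγ : ∀ i j, ‖γ i j‖ ≤ 1) (hW : ∀ v ∈ W, γ *ᵥ v ∈ W) :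
    ∀ v ∈ trunc W n, γ *ᵥ v ∈ trunc W n := by
  rintro v ⟨w, hw, hw1, h⟩
  refine ⟨γ *ᵥ w, hW w hw, fun i => ?_, fun i => ?_⟩
  · have := norm_mulVec_le γ w 1 1 zero_le_one zero_le_one hγ hw1 i
    simpa using this
  · have h1 : (γ *ᵥ v) i - (γ *ᵥ w) i = (γ *ᵥ (v - w)) i := by
      rw [Matrix.mulVec_sub]; rfl
    rw [h1]
    have := norm_mulVec_le γ (v - w) 1 _ zero_le_one (pow_pos' _).le hγ (fun i => h i) i
    rwa [one_mul] at this

end general

variable {κ : Type} [Fintype κ] [DecidableEq κ] {Γ : Type} [Monoid Γ] {A : Type} [Ring A]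

theorem galPow_integral (gal : Γ →* Matrix κ κ ℚ_[p]) (hint : ∀ γ i j, ‖gal γ i j‖ ≤ 1) (r : ℕ)
    (γ : Γ) (x y : Fin r × κ) : ‖galPow gal r γ x y‖ ≤ 1 := by
  unfold galPow
  rw [Matrix.of_apply]
  split_ifs
  · exact hint _ _ _
  · simp

/-- finitely many classes of stable lattices in the power -/
def FinCl (gal : Γ →* Matrix κ κ ℚ_[p]) (real : A →+* Matrix κ κ ℚ_[p]) (r : ℕ) : Prop :=
  ∃ F : Set (Submodule ℤ_[p] (Fin r × κ → ℚ_[p])), F.Finite ∧
    ∀ L : Submodule ℤ_[p] (Fin r × κ → ℚ_[p]), IsLat L →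
      (∀ γ, ∀ v ∈ L, galPow gal r γ *ᵥ v ∈ L) → ∃ L' ∈ F, Equiv (realPow real r) L L'

/-- `k` classes of stable lattices between `p ^ n T` and `T` in the square -/
def HasCl (gal : Γ →* Matrix κ κ ℚ_[p]) (real : A →+* Matrix κ κ ℚ_[p]) (n k : ℕ) : Prop :=
  ∃ L : Fin k → Submodule ℤ_[p] (Fin 2 × κ → ℚ_[p]),
    (∀ i, (∀ γ, ∀ v ∈ L i, galPow gal 2 γ *ᵥ v ∈ L i) ∧
      (∀ v : Fin 2 × κ → ℚ_[p], (∀ x, ‖v x‖ ≤ (p : ℝ) ^ (-(n : ℤ))) → v ∈ L i) ∧
      ∀ v ∈ L i, ∀ x, ‖v x‖ ≤ 1) ∧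
    ∀ i j, Equiv (realPow real 2) (L i) (L j) → i = j

variable [Algebra ℚ A] [FiniteDimensional ℚ A] [IsSemisimpleRing A]

theorem tfae (gal : Γ →* Matrix κ κ ℚ_[p]) (hint : ∀ γ i j, ‖gal γ i j‖ ≤ 1)
    (real : A →+* Matrix κ κ ℚ_[p]) (hinj : Function.Injective real)
    (heq : ∀ a γ, real a * gal γ = gal γ * real a) :
    List.TFAE [
      TateSS gal real,
      ∀ r, FinCl gal real r,
      FinCl gal real 2,
      ∀ n₀ : ℕ, ∃ n, n₀ ≤ n ∧ ¬ HasCl gal real n (n - n₀),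
      ∀ W : Submodule ℚ_[p] (Fin 2 × κ → ℚ_[p]), (∀ γ, ∀ v ∈ W, galPow gal 2 γ *ᵥ v ∈ W) →
        ∀ n₀ : ℕ, ∃ n m, n₀ ≤ n ∧ n < m ∧ Equiv (realPow real 2) (trunc W n) (trunc W m)] := by
  classical
  have hp : (1 : ℝ) < p := one_lt_p
  -- if the conjecture fails
  have hbad : ¬ TateSS gal real → ∃ W : Submodule ℚ_[p] (Fin 2 × κ → ℚ_[p]),
      (∀ γ, ∀ v ∈ W, galPow gal 2 γ *ᵥ v ∈ W) ∧ ∃ k : ℕ, ∀ n m, k ≤ n → n < m →
        ¬ Equiv (realPow real 2) (trunc W n) (trunc W m) := by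
    intro h
    obtain ⟨W, c, w₀, hW, hc, hw₀, hcw⟩ := exists_bad gal real heq h
    obtain ⟨k, hk⟩ := rigid (realPow real 2) W c hc w₀ hw₀ hcw
    exact ⟨W, hW, k, hk⟩
  tfae_have 1 → 2 := by
    rintro ⟨hss, htate⟩ r
    have hinj' : Function.Injective (realPow real r) := by
      intro X Y hXY
      ext i j
      apply hinj
      ext x y
      have := congrFun (congrFun hXY (i, x)) (j, y)
      exact this
    have hcomm : ∀ (b : Matrix (Fin r) (Fin r) A) (γ : Γ),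
        realPow real r b * galPow gal r γ = galPow gal r γ * realPow real r b := by
      intro b γ
      exact (dgm_comm real r (gal γ) (fun a => (heq a γ).symm) b).symm
    exact finitely_many (realPow real r) hinj' (galPow gal r) hcomm
      (fun W hW => exists_idem gal real hss htate r W hW)
  tfae_have 2 → 3 := fun h => h 2
  tfae_have 3 → 4 := by
    rintro ⟨F, hF, hL⟩ n₀
    refine ⟨n₀ + (hF.toFinset.card + 1), by omega, ?_⟩
    rintro ⟨L, h1, h2⟩
    have h3 : ∀ i, ∃ L' ∈ F, Equiv (realPow real 2) (L i) L' := by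
      intro i
      refine hL (L i) ⟨n₀ + (hF.toFinset.card + 1), fun v hv => (h1 i).2.1 v hv, fun v hv x => ?_⟩
        (h1 i).1
      refine ((h1 i).2.2 v hv x).trans ?_
      rw [← zpow_zero (p : ℝ)]
      exact zpow_le_zpow_right₀ hp.le (by omega)
    choose L' hL' hE using h3
    have hinj2 : Function.Injective L' := by
      intro i j hij
      apply h2
      exact (hE i).trans (by rw [hij]; exact (hE j).symm)
    have hcard : Fintype.card (Fin (n₀ + (hF.toFinset.card + 1) - n₀)) ≤ hF.toFinset.card := by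
      have := Finset.card_le_card_of_injOn (s := Finset.univ) (t := hF.toFinset) L'
        (fun i _ => by simpa using hL' i) (hinj2.injOn)
      simpa using this
    rw [Fintype.card_fin] at hcard
    omega
  tfae_have 4 → 1 := by
    intro h
    by_contra hcon
    obtain ⟨W, hW, k, hk⟩ := hbad hcon
    obtain ⟨n, hn, hno⟩ := h k
    apply hno
    refine ⟨fun i => trunc W (k + i), fun i => ⟨fun γ => ?_, ?_, ?_⟩, ?_⟩
    · exact trunc_stable W _ _ (galPow_integral gal hint 2 γ) (hW γ)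
    · intro v hv
      exact mem_trunc_of_small W _ n (by have := i.2; omega) v hv
    · intro v hv x
      exact trunc_le_one W _ v hv x
    · intro i j hij
      rcases lt_trichotomy (i : ℕ) j with h1 | h1 | h1
      · exact absurd hij (hk _ _ (by omega) (by omega))
      · exact Fin.ext h1
      · exact absurd hij.symm (hk _ _ (by omega) (by omega))
  tfae_have 3 → 5 := by
    rintro ⟨F, hF, hL⟩ W hW n₀
    have h3 : ∀ n : ℕ, ∃ L' ∈ F, Equiv (realPow real 2) (trunc W (n₀ + n)) L' := by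
      intro n
      exact hL _ (isLat_trunc W _) (fun γ => trunc_stable W _ _ (galPow_integral gal hint 2 γ) (hW γ))
    choose L' hL' hE using h3
    obtain ⟨n, _, m, _, hne, hnm⟩ := Set.infinite_univ.exists_ne_map_eq_of_mapsTo
      (f := L') (t := F) (fun n _ => hL' n) hF
    have hEq : ∀ a b : ℕ, L' a = L' b → Equiv (realPow real 2) (trunc W (n₀ + a)) (trunc W (n₀ + b)) := by
      intro a b hab
      exact (hE a).trans (by rw [hab]; exact (hE b).symm)
    rcases lt_or_gt_of_ne hne with h1 | h1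
    · exact ⟨n₀ + n, n₀ + m, by omega, by omega, hEq n m hnm⟩
    · exact ⟨n₀ + m, n₀ + n, by omega, by omega, hEq m n hnm.symm⟩
  tfae_have 5 → 1 := by
    intro h
    by_contra hcon
    obtain ⟨W, hW, k, hk⟩ := hbad hcon
    obtain ⟨n, m, hn, hnm, hE⟩ := h W hW k
    exact hk n m hn hnm hE
  tfae_finish

end Pool.Agent.Helper95.ISO
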