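import Pool.Agent.Helper95.ISO.DC

/-!
# One Tate class and its sequence of lattices
-/

open Module Matrix

namespace Pool.Agent.Helper95.ISO

variable {p : ℕ} [Fact p.Prime] {κ κ' : Type} [Fintype κ] [DecidableEq κ] [Fintype κ']
  [DecidableEq κ']

/-- the lattice of the vectors `(x, y)` with `x` integral and `y` congruent to `φ x` modulo `p ^ n` -/
noncomputable def lat (φ : Matrix κ' κ ℚ_[p]) (n : ℕ) : Set (κ ⊕ κ' → ℚ_[p]) :=
  {v | (∀ i, ‖v (Sum.inl i)‖ ≤ 1) ∧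
    ∀ j, ‖v (Sum.inr j) - (φ *ᵥ fun i => v (Sum.inl i)) j‖ ≤ (p : ℝ) ^ (-(n : ℤ))}

/-- the rational combinations of the maps given by elements of the algebra -/
noncomputable def homs {A : Type} [Ring A] (real : A →+* Matrix (κ ⊕ κ') (κ ⊕ κ') ℚ_[p]) :
    Submodule ℚ_[p] (Matrix κ' κ ℚ_[p]) :=
  Submodule.span ℚ_[p] {ψ | ∃ a : A, real a = fromBlocks 0 0 ψ 0}

theorem norm_mulVec_le {ι ι' : Type} [Fintype ι] [Fintype ι'] (M : Matrix ι' ι ℚ_[p])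
    (x : ι → ℚ_[p]) (r s : ℝ) (hr : 0 ≤ r) (hs : 0 ≤ s) (hM : ∀ i j, ‖M i j‖ ≤ r)
    (hx : ∀ j, ‖x j‖ ≤ s) (i : ι') : ‖(M *ᵥ x) i‖ ≤ r * s := by
  unfold Matrix.mulVec dotProduct
  refine IsUltrametricDist.norm_sum_le_of_forall_le_of_nonneg (by positivity) fun j _ => ?_
  rw [norm_mul]
  exact mul_le_mul (hM i j) (hx j) (norm_nonneg _) hr

theorem norm_mul_le' {ι ι' ι'' : Type} [Fintype ι] (M : Matrix ι' ι ℚ_[p])
    (N : Matrix ι ι'' ℚ_[p]) (r s : ℝ) (hr : 0 ≤ r) (hs : 0 ≤ s) (hM : ∀ i j, ‖M i j‖ ≤ r)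
    (hN : ∀ i j, ‖N i j‖ ≤ s) (i : ι') (j : ι'') : ‖(M * N) i j‖ ≤ r * s := by
  rw [Matrix.mul_apply]
  refine IsUltrametricDist.norm_sum_le_of_forall_le_of_nonneg (by positivity) fun k _ => ?_
  rw [norm_mul]
  exact mul_le_mul (hM i k) (hN k j) (norm_nonneg _) hr

theorem norm_sub_le' (a b : ℚ_[p]) (r : ℝ) (ha : ‖a‖ ≤ r) (hb : ‖b‖ ≤ r) : ‖a - b‖ ≤ r :=
  by
  rw [sub_eq_add_neg]
  exact (IsUltrametricDist.norm_add_le_max a (-b)).trans (max_le ha (by rwa [norm_neg]))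

theorem norm_add_le' (a b : ℚ_[p]) (r : ℝ) (ha : ‖a‖ ≤ r) (hb : ‖b‖ ≤ r) : ‖a + b‖ ≤ r :=
  (IsUltrametricDist.norm_add_le_max a b).trans (max_le ha hb)

theorem pow_pos' (n : ℤ) : (0 : ℝ) < (p : ℝ) ^ n := by
  have : (0 : ℝ) < p := by exact_mod_cast (Fact.out : p.Prime).pos
  positivity

theorem one_lt_p : (1 : ℝ) < p := by exact_mod_cast (Fact.out : p.Prime).one_lt

/-- A block diagonal integral matrix preserves the lattice iff the commutator with `φ` is divisible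
by `p ^ n`. -/
theorem maps_iff (φ : Matrix κ' κ ℚ_[p]) (n : ℕ) (c₁ : Matrix κ κ ℚ_[p]) (c₂ : Matrix κ' κ' ℚ_[p])
    (h₁ : ∀ i j, ‖c₁ i j‖ ≤ 1) (h₂ : ∀ i j, ‖c₂ i j‖ ≤ 1) :
    (∀ v ∈ lat φ n, fromBlocks c₁ 0 0 c₂ *ᵥ v ∈ lat φ n) ↔
      ∀ i j, ‖(c₂ * φ - φ * c₁) i j‖ ≤ (p : ℝ) ^ (-(n : ℤ)) := by
  have hL : ∀ v : κ ⊕ κ' → ℚ_[p], ∀ i, (fromBlocks c₁ 0 0 c₂ *ᵥ v) (Sum.inl i) =
      (c₁ *ᵥ fun i => v (Sum.inl i)) i := by
    intro v i
    simp [Matrix.mulVec, dotProduct]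
  have hR : ∀ v : κ ⊕ κ' → ℚ_[p], ∀ i, (fromBlocks c₁ 0 0 c₂ *ᵥ v) (Sum.inr i) =
      (c₂ *ᵥ fun i => v (Sum.inr i)) i := by
    intro v i
    simp [Matrix.mulVec, dotProduct]
  constructor
  · intro h i j
    let x : κ → ℚ_[p] := Pi.single j 1
    let v : κ ⊕ κ' → ℚ_[p] := Sum.elim x (φ *ᵥ x)
    have hx : ∀ i, ‖x i‖ ≤ 1 := by
      intro i
      by_cases hij : i = j
      · subst hij; simp [x]
      · simp [x, Pi.single_eq_of_ne hij]
    have hv : v ∈ lat φ n := by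
      refine ⟨hx, fun j => ?_⟩
      have : v (Sum.inr j) - (φ *ᵥ fun i => v (Sum.inl i)) j = 0 := by
        change (φ *ᵥ x) j - (φ *ᵥ x) j = 0
        exact sub_self _
      rw [this, norm_zero]
      exact (pow_pos' _).le
    have h1 := (h v hv).2 i
    rw [hR] at h1
    have h2 : (fun i => (fromBlocks c₁ 0 0 c₂ *ᵥ v) (Sum.inl i)) = c₁ *ᵥ x := by
      funext i; rw [hL]; rfl
    rw [h2] at h1
    have h3 : (c₂ *ᵥ fun i => v (Sum.inr i)) i - (φ *ᵥ (c₁ *ᵥ x)) i =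
        (c₂ * φ - φ * c₁) i j := by
      have : (fun i => v (Sum.inr i)) = φ *ᵥ x := rfl
      rw [this, Matrix.mulVec_mulVec, Matrix.mulVec_mulVec, ← Pi.sub_apply, ← Matrix.sub_mulVec]
      simp [x]
    rw [h3] at h1
    exact h1
  · intro h v hv
    set x : κ → ℚ_[p] := fun i => v (Sum.inl i) with hx
    set z : κ' → ℚ_[p] := fun j => v (Sum.inr j) - (φ *ᵥ x) j with hz
    have hy : (fun i => v (Sum.inr i)) = φ *ᵥ x + z := by
      funext j; simp [hz]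
    refine ⟨fun i => ?_, fun j => ?_⟩
    · rw [hL]
      have := norm_mulVec_le c₁ x 1 1 zero_le_one zero_le_one h₁ hv.1 i
      simpa using this
    · have h2 : (fun i => (fromBlocks c₁ 0 0 c₂ *ᵥ v) (Sum.inl i)) = c₁ *ᵥ x := by
        funext i; rw [hL]
      rw [hR, h2, hy, Matrix.mulVec_add, Matrix.mulVec_mulVec, Matrix.mulVec_mulVec]
      have h3 : ((c₂ * φ) *ᵥ x + c₂ *ᵥ z) j - ((φ * c₁) *ᵥ x) j =
          ((c₂ * φ - φ * c₁) *ᵥ x) j + (c₂ *ᵥ z) j := by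
        rw [Matrix.sub_mulVec]
        simp only [Pi.add_apply, Pi.sub_apply]
        ring
      rw [h3]
      apply norm_add_le'
      · have := norm_mulVec_le (c₂ * φ - φ * c₁) x _ 1 (pow_pos' _).le zero_le_one h hv.1 j
        rwa [mul_one] at this
      · have := norm_mulVec_le c₂ z 1 _ zero_le_one (pow_pos' _).le h₂ hv.2 j
        rwa [one_mul] at this

/-- a matrix which commutes with the projection is block diagonal -/
theorem block_diag (c : Matrix (κ ⊕ κ') (κ ⊕ κ') ℚ_[p])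
    (hc : c * fromBlocks 1 0 0 0 = fromBlocks 1 0 0 0 * c) :
    c = fromBlocks c.toBlocks₁₁ 0 0 c.toBlocks₂₂ := by
  have h := hc
  rw [← fromBlocks_toBlocks c, fromBlocks_multiply, fromBlocks_multiply] at h
  simp only [Matrix.mul_one, Matrix.mul_zero, Matrix.one_mul, Matrix.zero_mul, add_zero,
    zero_add] at h
  rw [fromBlocks_inj] at h
  conv_lhs => rw [← fromBlocks_toBlocks c]
  rw [← h.2.1, h.2.2.1]

variable {A : Type} [Ring A]

/-- the commutant -/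
def Com (real : A →+* Matrix (κ ⊕ κ') (κ ⊕ κ') ℚ_[p]) :
    Submodule ℚ_[p] (Matrix (κ ⊕ κ') (κ ⊕ κ') ℚ_[p]) where
  carrier := {c | ∀ a, c * real a = real a * c}
  add_mem' := by
    intro x y hx hy a
    rw [add_mul, mul_add, hx a, hy a]
  zero_mem' := by
    intro a; simp
  smul_mem' := by
    intro t x hx a
    rw [smul_mul_assoc, mul_smul_comm, hx a]

/-- the commutator with `φ` -/
noncomputable def dl (φ : Matrix κ' κ ℚ_[p]) (c : Matrix (κ ⊕ κ') (κ ⊕ κ') ℚ_[p]) : Matrix κ' κ ℚ_[p] :=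
  c.toBlocks₂₂ * φ - φ * c.toBlocks₁₁

/-- **The commutators are divisible by `p ^ (n + 1)` if two lattices are isomorphic.** -/
theorem small_of_iso (real : A →+* Matrix (κ ⊕ κ') (κ ⊕ κ') ℚ_[p])
    (hproj : ∃ e, real e = fromBlocks 1 0 0 0) (φ : Matrix κ' κ ℚ_[p])
    (hφ : ∀ i j, ‖φ i j‖ ≤ 1) (n m : ℕ) (hnm : n < m) (a : Aˣ)
    (ha : (fun v => real a *ᵥ v) '' lat φ n = lat φ m) (c : Matrix (κ ⊕ κ') (κ ⊕ κ') ℚ_[p])
    (hc : c ∈ Com real) (hci : ∀ i j, ‖c i j‖ ≤ 1) :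
    ∀ i j, ‖dl φ c i j‖ ≤ (p : ℝ) ^ (-((n : ℤ) + 1)) := by
  obtain ⟨e, he⟩ := hproj
  -- preserving the one lattice is equivalent to preserving the other
  have key : ∀ c ∈ Com real, (∀ v ∈ lat φ n, c *ᵥ v ∈ lat φ n) →
      ∀ v ∈ lat φ m, c *ᵥ v ∈ lat φ m := by
    intro c hc h v hv
    rw [← ha] at hv ⊢
    obtain ⟨w, hw, rfl⟩ := hv
    refine ⟨c *ᵥ w, h w hw, ?_⟩
    change real a *ᵥ (c *ᵥ w) = c *ᵥ (real a *ᵥ w)
    rw [Matrix.mulVec_mulVec, Matrix.mulVec_mulVec, hc a]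
  have hp : (1 : ℝ) < p := one_lt_p
  -- in terms of the commutators
  have key2 : ∀ c ∈ Com real, (∀ i j, ‖c i j‖ ≤ 1) →
      (∀ i j, ‖dl φ c i j‖ ≤ (p : ℝ) ^ (-(n : ℤ))) →
      ∀ i j, ‖dl φ c i j‖ ≤ (p : ℝ) ^ (-(m : ℤ)) := by
    intro c hc hci h
    have hb := block_diag c (by rw [← he]; exact hc e)
    have h1 : ∀ i j, ‖c.toBlocks₁₁ i j‖ ≤ 1 := fun i j => hci _ _
    have h2 : ∀ i j, ‖c.toBlocks₂₂ i j‖ ≤ 1 := fun i j => hci _ _
    have h3 := (maps_iff φ n _ _ h1 h2).2 h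
    rw [← hb] at h3
    have h4 := key c hc h3
    rw [hb] at h4
    exact (maps_iff φ m _ _ h1 h2).1 h4
  -- suppose that some commutator is not divisible
  by_contra hcon
  push Not at hcon
  obtain ⟨i₀, j₀, hij⟩ := hcon
  -- integrality of the commutator
  have hint : ∀ i j, ‖dl φ c i j‖ ≤ 1 := by
    intro i j
    unfold dl
    rw [Matrix.sub_apply]
    apply norm_sub_le'
    · have := norm_mul_le' c.toBlocks₂₂ φ 1 1 zero_le_one zero_le_one (fun i j => hci _ _) hφ i j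
      simpa using this
    · have := norm_mul_le' φ c.toBlocks₁₁ 1 1 zero_le_one zero_le_one hφ (fun i j => hci _ _) i j
      simpa using this
  -- the smallest valuation of the entries
  let P : ℕ → Prop := fun k => ∀ i j, ‖dl φ c i j‖ ≤ (p : ℝ) ^ (-(k : ℤ))
  have hP0 : P 0 := by
    intro i j
    simpa using hint i j
  classical
  -- the largest `k ≤ n` with `P k`
  let k := Nat.findGreatest P n
  have hPk : P k := Nat.findGreatest_spec (P := P) (Nat.zero_le n) hP0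
  have hkn : k ≤ n := Nat.findGreatest_le n
  have hPk1 : ¬ P (k + 1) := by
    by_cases h : k + 1 ≤ n
    · exact Nat.findGreatest_is_greatest (P := P) (Nat.lt_succ_self k) h
    · have : k = n := by omega
      intro hP
      have := hP i₀ j₀
      rw [‹k = n›] at this
      push_cast at this
      exact absurd this (not_le.2 hij)
  -- scale
  let c' : Matrix (κ ⊕ κ') (κ ⊕ κ') ℚ_[p] := ((p : ℚ_[p]) ^ (n - k)) • c
  have hc' : c' ∈ Com real := Submodule.smul_mem _ _ hc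
  have hnormp : ‖((p : ℚ_[p]) ^ (n - k))‖ = (p : ℝ) ^ (-((n - k : ℕ) : ℤ)) := by
    rw [norm_pow, Padic.norm_p, _root_.zpow_neg, zpow_natCast, inv_pow]
  have hle1 : (p : ℝ) ^ (-((n - k : ℕ) : ℤ)) ≤ 1 := by
    rw [← zpow_zero (p : ℝ)]
    exact zpow_le_zpow_right₀ hp.le (by omega)
  have hc'i : ∀ i j, ‖c' i j‖ ≤ 1 := by
    intro i j
    change ‖((p : ℚ_[p]) ^ (n - k)) * c i j‖ ≤ 1
    rw [norm_mul, hnormp]
    exact mul_le_one₀ hle1 (norm_nonneg _) (hci i j)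
  have hdl : ∀ i j, dl φ c' i j = ((p : ℚ_[p]) ^ (n - k)) * dl φ c i j := by
    intro i j
    have h1 : c'.toBlocks₁₁ = ((p : ℚ_[p]) ^ (n - k)) • c.toBlocks₁₁ := rfl
    have h2 : c'.toBlocks₂₂ = ((p : ℚ_[p]) ^ (n - k)) • c.toBlocks₂₂ := rfl
    unfold dl
    rw [h1, h2, Matrix.smul_mul, Matrix.mul_smul, ← smul_sub]
    rfl
  have h5 : ∀ i j, ‖dl φ c' i j‖ ≤ (p : ℝ) ^ (-(n : ℤ)) := by
    intro i j
    rw [hdl, norm_mul, hnormp]
    calc (p : ℝ) ^ (-((n - k : ℕ) : ℤ)) * ‖dl φ c i j‖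
        ≤ (p : ℝ) ^ (-((n - k : ℕ) : ℤ)) * (p : ℝ) ^ (-(k : ℤ)) :=
          mul_le_mul_of_nonneg_left (hPk i j) (pow_pos' _).le
      _ = (p : ℝ) ^ (-(n : ℤ)) := by
          rw [← zpow_add₀ (by positivity)]
          congr 1
          push_cast [Nat.cast_sub hkn]
          ring
  have h6 := key2 c' hc' hc'i h5
  apply hPk1
  intro i j
  have h7 := h6 i j
  rw [hdl, norm_mul, hnormp] at h7
  have h8 : ‖dl φ c i j‖ ≤ (p : ℝ) ^ (-(m : ℤ)) * (p : ℝ) ^ (((n - k : ℕ) : ℤ)) := by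
    rw [_root_.zpow_neg (p : ℝ) ((n - k : ℕ) : ℤ)] at h7
    have hpos := pow_pos' (p := p) ((n - k : ℕ) : ℤ)
    rw [inv_mul_le_iff₀ hpos] at h7
    rw [mul_comm]
    exact h7
  refine h8.trans ?_
  rw [← zpow_add₀ (by positivity)]
  refine zpow_le_zpow_right₀ hp.le ?_
  push_cast [Nat.cast_sub hkn]
  omega

end Pool.Agent.Helper95.ISO
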