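import Mathlib

/-!
# Extension of scalars of semisimple algebras in characteristic zero, and double centralizers
-/

open scoped TensorProduct
open Module

namespace Pool.Agent.Helper95.ISO

section Trace

variable {k A : Type*} [Field k] [Ring A] [Algebra k A]

/-- trace of the left multiplication -/
noncomputable def lt (k : Type*) {A : Type*} [Field k] [Ring A] [Algebra k A] (a : A) : k :=
  LinearMap.trace k A (LinearMap.mulLeft k a)

theorem lt_add (a b : A) : lt k (a + b) = lt k a + lt k b := by
  unfold lt
  rw [show LinearMap.mulLeft k (a + b) = LinearMap.mulLeft k a + LinearMap.mulLeft k b by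
    ext x; simp [add_mul]]
  exact map_add _ _ _

theorem lt_smul (c : k) (a : A) : lt k (c • a) = c * lt k a := by
  unfold lt
  rw [show LinearMap.mulLeft k (c • a) = c • LinearMap.mulLeft k a by
    ext x; simp]
  exact map_smul _ _ _

/-- the radical of the trace form of a semisimple algebra is zero -/
theorem eq_zero_of_lt [CharZero k] [FiniteDimensional k A] [IsSemisimpleRing A] (x : A) (hx : ∀ y, lt k (y * x) = 0) : x = 0 := by
  classical
  -- the left ideal `A x` is generated by an idempotent
  let I : Submodule A A := Submodule.span A {x}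
  obtain ⟨I', hI'⟩ := exists_isCompl I
  -- write `1 = e + f` with `e ∈ I`, `f ∈ I'`
  have h1 : (1 : A) ∈ I ⊔ I' := by rw [hI'.sup_eq_top]; trivial
  obtain ⟨e, he, f, hf, hef⟩ := Submodule.mem_sup.1 h1
  have hdis : ∀ z, z ∈ I → z ∈ I' → z = 0 := fun z h h' =>
    (Submodule.disjoint_def.1 hI'.disjoint) z h h'
  -- `y e = y` for `y ∈ I`
  have hye : ∀ y ∈ I, y * e = y := by
    intro y hy
    have h2 : y * e + y * f = y := by rw [← mul_add, hef, mul_one]
    have h3 : y * f = y - y * e := eq_sub_of_add_eq' h2
    have h4 : y * f ∈ I := by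
      rw [h3]; exact I.sub_mem hy (I.smul_mem y he)
    have h5 : y * f ∈ I' := I'.smul_mem y hf
    have h6 := hdis _ h4 h5
    rw [h6, add_zero] at h2
    exact h2
  have hee : e * e = e := hye e he
  obtain ⟨a, ha⟩ := Submodule.mem_span_singleton.1 he
  have hte : lt k e = 0 := by
    rw [← ha]; exact hx a
  -- the trace of an idempotent is its rank
  have hidem : IsIdempotentElem (LinearMap.mulLeft k e) := by
    unfold IsIdempotentElem
    ext z
    simp [← mul_assoc, hee]
  have hproj : LinearMap.IsProj (LinearMap.range (LinearMap.mulLeft k e)) (LinearMap.mulLeft k e) := by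
    refine ⟨fun z => ⟨z, rfl⟩, ?_⟩
    rintro _ ⟨z, rfl⟩
    simp [← mul_assoc, hee]
  have htr := LinearMap.IsProj.trace (R := k) hproj
  have h0 : (Module.finrank k (LinearMap.range (LinearMap.mulLeft k e)) : k) = 0 := by
    rw [← htr]; exact hte
  have h0' : Module.finrank k (LinearMap.range (LinearMap.mulLeft k e)) = 0 := by
    exact_mod_cast h0
  have hr : LinearMap.range (LinearMap.mulLeft k e) = ⊥ := Submodule.finrank_eq_zero.1 h0'
  have he0 : e = 0 := by
    have : e * 1 ∈ LinearMap.range (LinearMap.mulLeft k e) := ⟨1, rfl⟩
    rw [hr] at this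
    simpa using this
  have := hye x (Submodule.mem_span_singleton_self x)
  rw [he0, mul_zero] at this
  exact this.symm

end Trace

/-- Extension of scalars of a semisimple algebra in characteristic zero. -/
theorem semisimple_baseChange (k K A : Type*) [Field k] [CharZero k] [Field K] [Algebra k K]
    [Ring A] [Algebra k A] [FiniteDimensional k A] [IsSemisimpleRing A] :
    IsSemisimpleRing (K ⊗[k] A) := by
  classical
  have : CharZero K := charZero_of_injective_algebraMap (algebraMap k K).injective
  have : IsArtinianRing (K ⊗[k] A) := IsArtinianRing.of_finite K (K ⊗[k] A)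
  rw [IsArtinianRing.isSemisimpleRing_iff_jacobson]
  rw [eq_bot_iff]
  intro x hx
  have hJ : ∀ z ∈ Ring.jacobson (K ⊗[k] A), IsNilpotent z := by
    intro z hz
    obtain ⟨n, hn⟩ := IsSemiprimaryRing.isNilpotent (R := K ⊗[k] A)
    refine ⟨n, ?_⟩
    have : z ^ n ∈ (Ring.jacobson (K ⊗[k] A)) ^ n := Ideal.pow_mem_pow hz n
    rw [hn] at this
    simpa using this
  -- traces on the tensor product
  have htr : ∀ a : A, lt K ((1 : K) ⊗ₜ[k] a) = algebraMap k K (lt k a) := by
    intro a
    unfold lt
    rw [← LinearMap.trace_baseChange]
    congr 1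
    ext z
    simp
  have hzero : ∀ z ∈ Ring.jacobson (K ⊗[k] A), lt K z = 0 := by
    intro z hz
    have h1 : IsNilpotent (LinearMap.mulLeft K z) := by
      obtain ⟨n, hn⟩ := hJ z hz
      refine ⟨n, ?_⟩
      rw [LinearMap.pow_mulLeft, hn]
      ext; simp
    exact (LinearMap.isNilpotent_trace_of_isNilpotent h1).eq_zero
  -- coordinates
  let b := Module.finBasis k A
  let B := Algebra.TensorProduct.basis K b
  have hxB : x = ∑ i, B.repr x i • ((1 : K) ⊗ₜ[k] b i) := by
    conv_lhs => rw [← B.sum_repr x]
    refine Finset.sum_congr rfl fun i _ => ?_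
    rw [Algebra.TensorProduct.basis_apply]
  -- the Gram matrix
  let G : Matrix (Fin (finrank k A)) (Fin (finrank k A)) k := Matrix.of fun j i => lt k (b j * b i)
  have hG : G.det ≠ 0 := by
    intro h0
    obtain ⟨v, hv0, hv⟩ := Matrix.exists_mulVec_eq_zero_iff.2 h0
    apply hv0
    have hlin : ∀ y : A, lt k (y * ∑ i, v i • b i) = 0 := by
      intro y
      have key : ∀ j, lt k (b j * ∑ i, v i • b i) = 0 := by
        intro j
        have := congrFun hv j
        simp only [Matrix.mulVec, dotProduct, Pi.zero_apply, G, Matrix.of_apply] at this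
        rw [Finset.mul_sum]
        have hs : lt k (∑ i, b j * v i • b i) = ∑ i, lt k (b j * b i) * v i := by
          have : ∀ s : Finset (Fin (finrank k A)),
              lt k (∑ i ∈ s, b j * v i • b i) = ∑ i ∈ s, lt k (b j * b i) * v i := by
            intro s
            induction s using Finset.induction_on with
            | empty => simp [lt]
            | insert a s ha ih =>
              rw [Finset.sum_insert ha, Finset.sum_insert ha, lt_add, ih, mul_smul_comm, lt_smul]
              ring
          exact this _
        rw [hs, this]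
      rw [← b.sum_repr y, Finset.sum_mul]
      have : ∀ s : Finset (Fin (finrank k A)),
          lt k (∑ j ∈ s, (b.repr y j • b j) * ∑ i, v i • b i) = 0 := by
        intro s
        induction s using Finset.induction_on with
        | empty => simp [lt]
        | insert a s ha ih =>
          rw [Finset.sum_insert ha, lt_add, ih, smul_mul_assoc, lt_smul, key]
          ring
      exact this _
    have h0 := eq_zero_of_lt (k := k) (∑ i, v i • b i) hlin
    funext i
    have := b.linearIndependent
    rw [Fintype.linearIndependent_iff] at this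
    exact this v h0 i
  have hGK : (G.map (algebraMap k K)).det ≠ 0 := by
    rw [← RingHom.mapMatrix_apply, ← RingHom.map_det]
    exact (map_ne_zero (algebraMap k K)).2 hG
  have hvec : (G.map (algebraMap k K)).mulVec (fun i => B.repr x i) = 0 := by
    funext j
    simp only [Matrix.mulVec, dotProduct, Matrix.map_apply, Pi.zero_apply, G, Matrix.of_apply]
    have h1 : lt K (((1 : K) ⊗ₜ[k] b j) * x) = 0 := by
      apply hzero
      exact Ideal.mul_mem_left _ _ hx
    have h2 : lt K (((1 : K) ⊗ₜ[k] b j) * ∑ i, B.repr x i • ((1 : K) ⊗ₜ[k] b i)) =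
        ∑ i, algebraMap k K (lt k (b j * b i)) * B.repr x i := by
      rw [Finset.mul_sum]
      have : ∀ s : Finset (Fin (finrank k A)),
          lt K (∑ i ∈ s, ((1 : K) ⊗ₜ[k] b j) * B.repr x i • ((1 : K) ⊗ₜ[k] b i)) =
          ∑ i ∈ s, algebraMap k K (lt k (b j * b i)) * B.repr x i := by
        intro s
        induction s using Finset.induction_on with
        | empty => simp [lt]
        | insert a s ha ih =>
          rw [Finset.sum_insert ha, Finset.sum_insert ha, lt_add, ih, mul_smul_comm, lt_smul,
            Algebra.TensorProduct.tmul_mul_tmul, one_mul, htr]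
          ring
      exact this _
    rw [← h2, ← hxB]
    exact h1
  have hz : (fun i => B.repr x i) = 0 := by
    by_contra hne
    exact hGK (Matrix.exists_mulVec_eq_zero_iff.1 ⟨_, hne, hvec⟩)
  rw [Submodule.mem_bot]
  have : B.repr x = 0 := by
    ext i; exact congrFun hz i
  exact (map_eq_zero_iff _ B.repr.injective).1 this

end Pool.Agent.Helper95.ISO
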