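import Pool.Agent.Helper95.ISO.Two

/-!
# Approximation by automorphisms of the motive
-/

open Module Matrix

namespace Pool.Agent.Helper95.ISO

variable {p : ℕ} [Fact p.Prime]

/-- a matrix congruent to one modulo `p` is invertible -/
theorem exists_inverse {ι : Type} [Fintype ι] [DecidableEq ι] (u : Matrix ι ι ℚ_[p]) (n : ℕ)
    (hu : ∀ i j, ‖(u - 1) i j‖ ≤ (p : ℝ) ^ (-((n : ℤ) + 1))) :
    ∃ v : Matrix ι ι ℚ_[p], u * v = 1 ∧ v * u = 1 ∧
      ∀ i j, ‖(v - 1) i j‖ ≤ (p : ℝ) ^ (-((n : ℤ) + 1)) := by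
  classical
  have hp : (1 : ℝ) < p := one_lt_p
  have hlt : (p : ℝ) ^ (-((n : ℤ) + 1)) < 1 := by
    rw [← zpow_zero (p : ℝ)]
    exact zpow_lt_zpow_right₀ hp (by omega)
  have hint : ∀ i j, ‖u i j‖ ≤ 1 := by
    intro i j
    have h1 : u i j = (u - 1) i j + (1 : Matrix ι ι ℚ_[p]) i j := by simp
    rw [h1]
    apply norm_add_le'
    · exact (hu i j).trans hlt.le
    · by_cases hij : i = j
      · subst hij; simp
      · rw [Matrix.one_apply_ne hij, norm_zero]; exact zero_le_one
  let U : Matrix ι ι ℤ_[p] := Matrix.of fun i j => ⟨u i j, hint i j⟩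
  have hUe : ∀ i j, ((U i j : ℤ_[p]) : ℚ_[p]) = u i j := fun _ _ => rfl
  have hUu : U.map (algebraMap ℤ_[p] ℚ_[p]) = u := by
    ext i j; rfl
  have hres : U.map (IsLocalRing.residue ℤ_[p]) = 1 := by
    ext i j
    rw [Matrix.map_apply]
    have h1 : U i j - (1 : Matrix ι ι ℤ_[p]) i j ∈ IsLocalRing.maximalIdeal ℤ_[p] := by
      rw [IsLocalRing.mem_maximalIdeal, PadicInt.mem_nonunits]
      have h2 : ((U i j - (1 : Matrix ι ι ℤ_[p]) i j : ℤ_[p]) : ℚ_[p]) = (u - 1) i j := by
        rw [Matrix.sub_apply]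
        by_cases hij : i = j
        · subst hij; simp [hUe]
        · simp [hUe, Matrix.one_apply_ne hij]
      rw [PadicInt.norm_def, h2]
      exact (hu i j).trans_lt hlt
    have h3 : IsLocalRing.residue ℤ_[p] (U i j - (1 : Matrix ι ι ℤ_[p]) i j) = 0 :=
      (IsLocalRing.residue_eq_zero_iff _).2 h1
    rw [map_sub, sub_eq_zero] at h3
    rw [h3]
    by_cases hij : i = j
    · subst hij; simp
    · simp [Matrix.one_apply_ne hij]
  have hdet : IsUnit U.det := by
    rw [← IsLocalRing.residue_ne_zero_iff_isUnit, RingHom.map_det, RingHom.mapMatrix_apply, hres,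
      Matrix.det_one]
    exact one_ne_zero
  have h1 : U * U⁻¹ = 1 := Matrix.mul_nonsing_inv U hdet
  have h2 : U⁻¹ * U = 1 := Matrix.nonsing_inv_mul U hdet
  let v : Matrix ι ι ℚ_[p] := (U⁻¹).map (algebraMap ℤ_[p] ℚ_[p])
  have huv : u * v = 1 := by
    rw [← hUu]
    change (U.map _) * (U⁻¹).map _ = 1
    rw [← Matrix.map_mul, h1]
    exact Matrix.map_one _ (map_zero _) (map_one _)
  have hvu : v * u = 1 := by
    rw [← hUu]
    change (U⁻¹).map _ * (U.map _) = 1
    rw [← Matrix.map_mul, h2]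
    exact Matrix.map_one _ (map_zero _) (map_one _)
  refine ⟨v, huv, hvu, fun i j => ?_⟩
  have h3 : v - 1 = v * (1 - u) := by rw [Matrix.mul_sub, hvu, Matrix.mul_one]
  rw [h3]
  have h4 : ∀ i j, ‖v i j‖ ≤ 1 := fun i j => (U⁻¹ i j).2
  have h5 : ∀ i j, ‖(1 - u) i j‖ ≤ (p : ℝ) ^ (-((n : ℤ) + 1)) := by
    intro i j
    have : (1 - u) i j = -((u - 1) i j) := by simp
    rw [this, norm_neg]
    exact hu i j
  have := norm_mul_le' v (1 - u) 1 _ zero_le_one (pow_pos' _).le h4 h5 i j
  rwa [one_mul] at this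

variable {A : Type} [Ring A] [Algebra ℚ A]

/-- the elements of the algebra are dense in the combinations -/
theorem approx {ι : Type} [Fintype ι] [DecidableEq ι] (real : A →+* Matrix ι ι ℚ_[p])
    (h : Matrix ι ι ℚ_[p]) (hh : h ∈ Submodule.span ℚ_[p] (Set.range real)) :
    ∀ ε : ℝ, 0 < ε → ∃ a : A, ∀ i j, ‖(real a - h) i j‖ ≤ ε := by
  induction hh using Submodule.span_induction with
  | mem x hx =>
    intro ε hε
    obtain ⟨a, rfl⟩ := hx
    exact ⟨a, fun i j => by simp [hε.le]⟩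
  | zero =>
    intro ε hε
    exact ⟨0, fun i j => by simp [hε.le]⟩
  | add x y _ _ hx hy =>
    intro ε hε
    obtain ⟨a, ha⟩ := hx ε hε
    obtain ⟨b, hb⟩ := hy ε hε
    refine ⟨a + b, fun i j => ?_⟩
    have : (real (a + b) - (x + y)) i j = (real a - x) i j + (real b - y) i j := by
      rw [map_add]; simp only [Matrix.sub_apply, Matrix.add_apply]; ring
    rw [this]
    exact norm_add_le' _ _ _ (ha i j) (hb i j)
  | smul c x _ hx =>
    intro ε hε
    obtain ⟨a, ha⟩ := hx (ε / (‖c‖ + 1)) (by positivity)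
    obtain ⟨M, hM⟩ : ∃ M : ℝ, ∀ i j, ‖real a i j‖ ≤ M := by
      obtain ⟨M, hM⟩ := (Set.finite_range fun x : ι × ι => ‖real a x.1 x.2‖).bddAbove
      exact ⟨M, fun i j => hM ⟨(i, j), rfl⟩⟩
    obtain ⟨r, hr⟩ := Padic.rat_dense p c (ε := ε / (|M| + 1)) (by positivity)
    refine ⟨r • a, fun i j => ?_⟩
    have h1 : real (r • a) = (r : ℚ_[p]) • real a := by
      have h2 := map_smul (RingHom.toRatAlgHom real) r a
      have h3 : (RingHom.toRatAlgHom real) (r • a) = real (r • a) := rfl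
      have h4 : (RingHom.toRatAlgHom real) a = real a := rfl
      rw [h3, h4] at h2
      rw [h2]
      ext i j
      simp [Algebra.smul_def]
    have h2 : (real (r • a) - c • x) i j =
        ((r : ℚ_[p]) - c) * real a i j + c * (real a - x) i j := by
      rw [h1]; simp only [Matrix.sub_apply, Matrix.smul_apply, smul_eq_mul]; ring
    rw [h2]
    apply norm_add_le'
    · rw [norm_mul]
      have h3 : ‖(r : ℚ_[p]) - c‖ ≤ ε / (|M| + 1) := by rw [norm_sub_rev]; exact hr.le
      calc ‖(r : ℚ_[p]) - c‖ * ‖real a i j‖ ≤ (ε / (|M| + 1)) * (|M| + 1) := by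
            apply mul_le_mul h3 _ (norm_nonneg _) (by positivity)
            exact (hM i j).trans ((le_abs_self M).trans (by linarith [abs_nonneg M]))
        _ = ε := by field_simp
    · rw [norm_mul]
      calc ‖c‖ * ‖(real a - x) i j‖ ≤ (‖c‖ + 1) * (ε / (‖c‖ + 1)) := by
            apply mul_le_mul (by linarith) (ha i j) (norm_nonneg _) (by positivity)
        _ = ε := by field_simp

variable [FiniteDimensional ℚ A]

/-- an element with invertible realization is invertible -/
theorem isUnit_of_real {ι : Type} [Fintype ι] [DecidableEq ι] (real : A →+* Matrix ι ι ℚ_[p])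
    (hinj : Function.Injective real) (a : A) (w : Matrix ι ι ℚ_[p]) (h1 : real a * w = 1)
    (h2 : w * real a = 1) : IsUnit a := by
  have hi : Function.Injective (LinearMap.mulLeft ℚ a) := by
    rw [injective_iff_map_eq_zero]
    intro b hb
    apply hinj
    have h3 : real a * real b = 0 := by
      rw [← map_mul]
      have : a * b = 0 := hb
      rw [this, map_zero]
    rw [map_zero]
    calc real b = (w * real a) * real b := by rw [h2, one_mul]
      _ = w * (real a * real b) := by rw [mul_assoc]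
      _ = 0 := by rw [h3, mul_zero]
  have hs := LinearMap.injective_iff_surjective.1 hi
  obtain ⟨b, hb⟩ := hs 1
  have hab : a * b = 1 := hb
  have hba : b * a = 1 := by
    apply hinj
    rw [map_mul, map_one]
    have h3 : real a * real b = 1 := by rw [← map_mul, hab, map_one]
    have h4 : real b = w := by
      calc real b = (w * real a) * real b := by rw [h2, one_mul]
        _ = w * (real a * real b) := by rw [mul_assoc]
        _ = w := by rw [h3, mul_one]
    rw [h4, h2]
  exact ⟨⟨a, b, hab, hba⟩, rfl⟩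

/-- **Approximation of invertible combinations by automorphisms.** -/
theorem exists_unit {ι : Type} [Fintype ι] [DecidableEq ι] (real : A →+* Matrix ι ι ℚ_[p])
    (hinj : Function.Injective real) (h g : Matrix ι ι ℚ_[p]) (hgh : g * h = 1) (hhg : h * g = 1)
    (hh : h ∈ Submodule.span ℚ_[p] (Set.range real)) (n : ℕ) :
    ∃ (a : Aˣ) (u v : Matrix ι ι ℚ_[p]), real a = h * u ∧ u * v = 1 ∧ v * u = 1 ∧
      (∀ i j, ‖(u - 1) i j‖ ≤ (p : ℝ) ^ (-((n : ℤ) + 1))) ∧
      (∀ i j, ‖(v - 1) i j‖ ≤ (p : ℝ) ^ (-((n : ℤ) + 1))) := by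
  obtain ⟨M, hM⟩ : ∃ M : ℝ, ∀ i j, ‖g i j‖ ≤ M := by
    obtain ⟨M, hM⟩ := (Set.finite_range fun x : ι × ι => ‖g x.1 x.2‖).bddAbove
    exact ⟨M, fun i j => hM ⟨(i, j), rfl⟩⟩
  have hpos := pow_pos' (p := p) (-((n : ℤ) + 1))
  obtain ⟨a, ha⟩ := approx real h hh ((p : ℝ) ^ (-((n : ℤ) + 1)) / (|M| + 1)) (by positivity)
  let u := g * real a
  have hu : ∀ i j, ‖(u - 1) i j‖ ≤ (p : ℝ) ^ (-((n : ℤ) + 1)) := by
    intro i j
    have h1 : u - 1 = g * (real a - h) := by rw [Matrix.mul_sub, hgh]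
    rw [h1]
    have := norm_mul_le' g (real a - h) (|M| + 1) _ (by positivity) (by positivity)
      (fun i j => (hM i j).trans ((le_abs_self M).trans (by linarith [abs_nonneg M]))) ha i j
    refine this.trans (le_of_eq ?_)
    field_simp
  obtain ⟨v, huv, hvu, hv⟩ := exists_inverse u n hu
  have hreal : real a = h * u := by
    change real a = h * (g * real a)
    rw [← Matrix.mul_assoc, hhg, Matrix.one_mul]
  have hw1 : real a * (v * g) = 1 := by
    rw [hreal]
    calc h * u * (v * g) = h * (u * v) * g := by simp only [Matrix.mul_assoc]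
      _ = 1 := by rw [huv, Matrix.mul_one, hhg]
  have hw2 : (v * g) * real a = 1 := by
    rw [hreal]
    calc v * g * (h * u) = v * (g * h) * u := by simp only [Matrix.mul_assoc]
      _ = 1 := by rw [hgh, Matrix.mul_one, hvu]
  obtain ⟨a', ha'⟩ := isUnit_of_real real hinj a _ hw1 hw2
  exact ⟨a', u, v, by rw [ha']; exact hreal, huv, hvu, hu, hv⟩

end Pool.Agent.Helper95.ISO
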