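import Pool.Agent.Helper95.ISO.One

/-!
# The constant, uniform in the Tate class
-/

open Module Matrix

namespace Pool.Agent.Helper95.ISO

variable {p : ℕ} [Fact p.Prime] {κ κ' : Type} [Fintype κ] [DecidableEq κ] [Fintype κ']
  [DecidableEq κ']

/-- linear maps are bounded -/
theorem exists_bound {r : ℕ}
    (S : (Fin r → κ' → κ → ℚ_[p]) →ₗ[ℚ_[p]] (κ' → κ → ℚ_[p])) :
    ∃ C : ℕ, ∀ (η : Fin r → κ' → κ → ℚ_[p]) (t : ℝ), 0 ≤ t → (∀ l i j, ‖η l i j‖ ≤ t) →
      ∀ i j, ‖S η i j‖ ≤ (p : ℝ) ^ C * t := by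
  obtain ⟨C, hC⟩ := pow_unbounded_of_one_lt ‖LinearMap.toContinuousLinearMap S‖ (one_lt_p (p := p))
  refine ⟨C, fun η t ht hη i j => ?_⟩
  have h1 : ‖η‖ ≤ t := (pi_norm_le_iff_of_nonneg ht).2 fun l =>
    (pi_norm_le_iff_of_nonneg ht).2 fun i => (pi_norm_le_iff_of_nonneg ht).2 (hη l i)
  have h2 : ‖S η‖ ≤ ‖LinearMap.toContinuousLinearMap S‖ * ‖η‖ :=
    (LinearMap.toContinuousLinearMap S).le_opNorm η
  calc ‖S η i j‖ ≤ ‖S η i‖ := norm_le_pi_norm (S η i) j
    _ ≤ ‖S η‖ := norm_le_pi_norm (S η) i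
    _ ≤ ‖LinearMap.toContinuousLinearMap S‖ * ‖η‖ := h2
    _ ≤ (p : ℝ) ^ C * t := mul_le_mul hC.le h1 (norm_nonneg _) (by
      have := one_lt_p (p := p); positivity)

/-- subspaces are closed -/
theorem mem_of_approx' (U : Submodule ℚ_[p] (κ' → κ → ℚ_[p])) (φ : κ' → κ → ℚ_[p])
    (h : ∀ ε : ℝ, 0 < ε → ∃ ψ ∈ U, ∀ i j, ‖(φ - ψ) i j‖ ≤ ε) : φ ∈ U := by
  have hc : IsClosed (U : Set (κ' → κ → ℚ_[p])) := U.closed_of_finiteDimensional
  have : φ ∈ closure (U : Set (κ' → κ → ℚ_[p])) := by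
    rw [Metric.mem_closure_iff]
    intro ε hε
    obtain ⟨ψ, hψ, hle⟩ := h (ε / 2) (by positivity)
    refine ⟨ψ, hψ, ?_⟩
    rw [dist_eq_norm]
    have : ‖φ - ψ‖ ≤ ε / 2 := (pi_norm_le_iff_of_nonneg (by positivity)).2 fun i =>
      (pi_norm_le_iff_of_nonneg (by positivity)).2 (hle i)
    linarith
  rwa [hc.closure_eq] at this

/-- subspaces are closed -/
theorem mem_of_approx (U : Submodule ℚ_[p] (Matrix κ' κ ℚ_[p])) (φ : Matrix κ' κ ℚ_[p])
    (h : ∀ ε : ℝ, 0 < ε → ∃ ψ ∈ U, ∀ i j, ‖(φ - ψ) i j‖ ≤ ε) : φ ∈ U :=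
  mem_of_approx' U φ h

/-- A linear map `D` has a quasi-inverse. -/
theorem exists_quasi {K U W : Type*} [Field K] [AddCommGroup U] [Module K U] [AddCommGroup W]
    [Module K W] (D : U →ₗ[K] W) : ∃ S : W →ₗ[K] U, ∀ u, D (S (D u)) = D u := by
  obtain ⟨g, hg⟩ := LinearMap.exists_rightInverse_of_surjective D.rangeRestrict
    (LinearMap.range_eq_top.2 (LinearMap.surjective_rangeRestrict D))
  obtain ⟨S, hS⟩ := LinearMap.exists_extend g
  refine ⟨S, fun u => ?_⟩
  have h1 : S (D u) = g (D.rangeRestrict u) := by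
    have := congrArg (fun f => f (D.rangeRestrict u)) hS
    exact this
  rw [h1]
  have := congrArg (fun f => (f (D.rangeRestrict u) : W)) hg
  exact this

variable {A : Type} [Ring A] [Algebra ℚ A] [FiniteDimensional ℚ A] [IsSemisimpleRing A]

/-- a ring homomorphism between `ℚ`-algebras -/
noncomputable def ratHom (real : A →+* Matrix (κ ⊕ κ') (κ ⊕ κ') ℚ_[p]) :
    A →ₐ[ℚ] Matrix (κ ⊕ κ') (κ ⊕ κ') ℚ_[p] := RingHom.toRatAlgHom real

/-- `φ` is a combination of homomorphisms if its commutators with the commutant vanish -/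
theorem mem_homs (real : A →+* Matrix (κ ⊕ κ') (κ ⊕ κ') ℚ_[p])
    (hproj : ∃ e, real e = fromBlocks 1 0 0 0) (φ : Matrix κ' κ ℚ_[p])
    (h : ∀ c ∈ Com real, dl φ c = 0) : φ ∈ homs real := by
  obtain ⟨e, he⟩ := hproj
  -- the extension by zero of `φ`
  have h1 : fromBlocks 0 0 φ 0 ∈ Submodule.span ℚ_[p] (Set.range (ratHom real)) := by
    apply matrix_mem_span
    intro Y hY
    have hY' : Y ∈ Com real := fun a => hY a
    have hb := block_diag Y (by rw [← he]; exact hY' e)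
    have h2 := h Y hY'
    unfold dl at h2
    rw [hb, fromBlocks_multiply, fromBlocks_multiply]
    simp only [Matrix.mul_zero, Matrix.zero_mul, add_zero, zero_add]
    rw [sub_eq_zero.1 h2]
  -- cut out the block
  have h3 : ∀ X ∈ Submodule.span ℚ_[p] (Set.range (ratHom real)), X.toBlocks₂₁ ∈ homs real := by
    intro X hX
    induction hX using Submodule.span_induction with
    | mem x hx =>
      obtain ⟨a, rfl⟩ := hx
      apply Submodule.subset_span
      refine ⟨(1 - e) * a * e, ?_⟩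
      rw [map_mul, map_mul, map_sub, map_one, he]
      change (1 - fromBlocks 1 0 0 0) * real a * fromBlocks 1 0 0 0 =
        fromBlocks 0 0 (real a).toBlocks₂₁ 0
      have h4 : (1 : Matrix (κ ⊕ κ') (κ ⊕ κ') ℚ_[p]) - fromBlocks 1 0 0 0 =
          fromBlocks 0 0 0 1 := by
        rw [← fromBlocks_one, sub_eq_add_neg, fromBlocks_neg, fromBlocks_add]
        simp
      rw [h4]
      conv_lhs => rw [← fromBlocks_toBlocks (real a)]
      rw [fromBlocks_multiply, fromBlocks_multiply]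
      simp
    | zero => exact Submodule.zero_mem _
    | add x y _ _ hx hy => exact Submodule.add_mem _ hx hy
    | smul c x _ ih => exact Submodule.smul_mem _ c ih
  have h4 := h3 _ h1
  rwa [toBlocks_fromBlocks₂₁] at h4

/-- **The constant.** -/
theorem exists_constant (real : A →+* Matrix (κ ⊕ κ') (κ ⊕ κ') ℚ_[p])
    (hproj : ∃ e, real e = fromBlocks 1 0 0 0) :
    ∃ C : ℕ, ∀ (φ : Matrix κ' κ ℚ_[p]) (t : ℝ), 0 ≤ t →
      (∀ c ∈ Com real, (∀ i j, ‖c i j‖ ≤ 1) → ∀ i j, ‖dl φ c i j‖ ≤ t) →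
      ∃ ψ ∈ homs real, ∀ i j, ‖(φ - ψ) i j‖ ≤ (p : ℝ) ^ C * t := by
  classical
  -- an integral spanning set of the commutant
  obtain ⟨r, b, hb⟩ : ∃ (r : ℕ) (b : Fin r → Matrix (κ ⊕ κ') (κ ⊕ κ') ℚ_[p]),
      Submodule.span ℚ_[p] (Set.range b) = Com real := by
    have := (Submodule.fg_iff_exists_fin_generating_family (N := Com real)).1
      (IsNoetherian.noetherian _)
    exact this
  have hscale : ∀ c : Matrix (κ ⊕ κ') (κ ⊕ κ') ℚ_[p], ∃ k : ℕ, ∀ i j,
      ‖(((p : ℚ_[p]) ^ k) • c) i j‖ ≤ 1 := by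
    intro c
    obtain ⟨M, hM⟩ : ∃ M : ℝ, ∀ i j, ‖c i j‖ ≤ M := by
      obtain ⟨M, hM⟩ := (Set.finite_range fun x : (κ ⊕ κ') × (κ ⊕ κ') => ‖c x.1 x.2‖).bddAbove
      exact ⟨M, fun i j => hM ⟨(i, j), rfl⟩⟩
    obtain ⟨k, hk⟩ := pow_unbounded_of_one_lt M (one_lt_p (p := p))
    refine ⟨k, fun i j => ?_⟩
    change ‖((p : ℚ_[p]) ^ k) * c i j‖ ≤ 1
    rw [norm_mul, norm_pow, Padic.norm_p, inv_pow]
    have hp : (0 : ℝ) < (p : ℝ) ^ k := by have := one_lt_p (p := p); positivity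
    rw [inv_mul_le_iff₀ hp, mul_one]
    exact (hM i j).trans hk.le
  choose k hk using hscale
  let b' : Fin r → Matrix (κ ⊕ κ') (κ ⊕ κ') ℚ_[p] := fun l => ((p : ℚ_[p]) ^ k (b l)) • b l
  have hb'C : ∀ l, b' l ∈ Com real := by
    intro l
    apply Submodule.smul_mem
    rw [← hb]
    exact Submodule.subset_span ⟨l, rfl⟩
  -- the linear map of commutators
  let D : Matrix κ' κ ℚ_[p] →ₗ[ℚ_[p]] (Fin r → Matrix κ' κ ℚ_[p]) :=
    { toFun := fun φ l => dl φ (b' l)
      map_add' := by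
        intro x y
        funext l
        simp only [dl, Pi.add_apply]
        rw [Matrix.mul_add, Matrix.add_mul]
        abel
      map_smul' := by
        intro c x
        funext l
        simp only [dl, Pi.smul_apply, RingHom.id_apply]
        rw [Matrix.mul_smul, Matrix.smul_mul, smul_sub] }
  have hker : ∀ φ, D φ = 0 → φ ∈ homs real := by
    intro φ hφ
    apply mem_homs real hproj
    intro c hc
    -- additivity in `c`
    have hlin : ∀ c ∈ Submodule.span ℚ_[p] (Set.range b), dl φ c = 0 := by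
      intro c hc
      induction hc using Submodule.span_induction with
      | mem x hx =>
        obtain ⟨l, rfl⟩ := hx
        have h1 : dl φ (b' l) = 0 := congrFun hφ l
        have h2 : dl φ (b' l) = ((p : ℚ_[p]) ^ k (b l)) • dl φ (b l) := by
          have h3 : (b' l).toBlocks₁₁ = ((p : ℚ_[p]) ^ k (b l)) • (b l).toBlocks₁₁ := rfl
          have h4 : (b' l).toBlocks₂₂ = ((p : ℚ_[p]) ^ k (b l)) • (b l).toBlocks₂₂ := rfl
          unfold dl
          rw [h3, h4, Matrix.smul_mul, Matrix.mul_smul, ← smul_sub]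
        rw [h2] at h1
        rcases smul_eq_zero.1 h1 with h | h
        · exfalso
          have hp : (p : ℚ_[p]) ≠ 0 := by exact_mod_cast (Fact.out : p.Prime).ne_zero
          exact (pow_ne_zero _ hp) h
        · exact h
      | zero =>
        have h3 : (0 : Matrix (κ ⊕ κ') (κ ⊕ κ') ℚ_[p]).toBlocks₁₁ = 0 := rfl
        have h4 : (0 : Matrix (κ ⊕ κ') (κ ⊕ κ') ℚ_[p]).toBlocks₂₂ = 0 := rfl
        unfold dl
        rw [h3, h4]
        simp
      | add x y _ _ hx hy =>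
        have h3 : (x + y).toBlocks₁₁ = x.toBlocks₁₁ + y.toBlocks₁₁ := rfl
        have h4 : (x + y).toBlocks₂₂ = x.toBlocks₂₂ + y.toBlocks₂₂ := rfl
        unfold dl at hx hy ⊢
        rw [h3, h4, Matrix.add_mul, Matrix.mul_add]
        have : x.toBlocks₂₂ * φ + y.toBlocks₂₂ * φ - (φ * x.toBlocks₁₁ + φ * y.toBlocks₁₁) =
          (x.toBlocks₂₂ * φ - φ * x.toBlocks₁₁) + (y.toBlocks₂₂ * φ - φ * y.toBlocks₁₁) := by
          abel
        rw [this, hx, hy, add_zero]
      | smul c x _ ih =>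
        have h3 : (c • x).toBlocks₁₁ = c • x.toBlocks₁₁ := rfl
        have h4 : (c • x).toBlocks₂₂ = c • x.toBlocks₂₂ := rfl
        unfold dl at ih ⊢
        rw [h3, h4, Matrix.smul_mul, Matrix.mul_smul, ← smul_sub, ih, smul_zero]
    apply hlin
    rw [hb]; exact hc
  obtain ⟨S, hS⟩ := exists_quasi D
  obtain ⟨C, hC⟩ := exists_bound S
  refine ⟨C, fun φ t ht h => ?_⟩
  refine ⟨φ - S (D φ), ?_, ?_⟩
  · apply hker
    rw [map_sub, hS, sub_self]
  · intro i j
    rw [sub_sub_cancel]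
    exact hC (D φ) t ht (fun l i j => h (b' l) (hb'C l) (hk (b l)) i j) i j

end Pool.Agent.Helper95.ISO
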